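import Pool.Agent.Lib.MP_fe8cb7_co.h30.StQ

/-!
# Daykin-Haggkvist problem, piece Q1: the flow for one vertex
-/

set_option autoImplicit false

open Finset

namespace DH

/-- the real-valued core -/
private theorem q1_core {α : Type} [Fintype α] [DecidableEq α] (X1 X2 Y : Finset α)
    (h1Y : ∀ P, P ∈ X1 → P ∉ Y) (h2Y : ∀ P, P ∈ X2 → P ∉ Y)
    (a : α → α → ℝ) (ha0 : ∀ P Q, 0 ≤ a P Q) (ha1 : ∀ P Q, a P Q ≤ 1) (κ : ℝ) (hκ : 0 ≤ κ)
    (hcard : X1.card = X2.card) (hκρ : κ * X1.card ≤ 1 / 2)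
    (hn1 : ∀ P ∈ X1, ∀ Q ∈ X2, 1 - κ * ∑ Q' ∈ X2, a P Q' ≤ κ * ∑ S ∈ Y, a P S * a S Q)
    (hn2 : ∀ P ∈ X1, ∀ Q ∈ X2, 1 - κ * ∑ P' ∈ X1, a P' Q ≤ κ * ∑ S ∈ Y, a P S * a S Q) :
    ∃ φ : α → α → ℝ, (∀ P Q, 0 ≤ φ P Q) ∧
      (∀ P Q, φ P Q ≠ 0 → ((P ∈ X1 ∨ P ∈ Y) ∧ (Q ∈ X2 ∨ Q ∈ Y)) ∧ (P = Q ∨ a P Q ≠ 0)) ∧
      (∀ P, P ∈ X1 ∨ P ∈ Y → ∑ Q, φ P Q = 1) ∧ (∀ Q, Q ∈ X2 ∨ Q ∈ Y → ∑ P, φ P Q = 1) ∧
      (∀ P Q, P ≠ Q → φ P Q ≤ κ) ∧ (∀ P Q, P ≠ Q → φ P Q ≠ 0 → P ∈ X1 ∨ Q ∈ X2) ∧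
      (∀ P ∈ Y, 1 / 2 ≤ φ P P) := by
  classical
  set r : α → ℝ := fun P => 1 - κ * ∑ Q' ∈ X2, a P Q' with hr
  set r' : α → ℝ := fun Q => 1 - κ * ∑ P' ∈ X1, a P' Q with hr'
  set n : α → α → ℝ := fun P Q => ∑ S ∈ Y, a P S * a S Q with hn
  set R : ℝ := ∑ P ∈ X1, r P with hR
  have hR' : ∑ Q ∈ X2, r' Q = R := by
    rw [hR]
    simp only [hr, hr', sum_sub_distrib, sum_const, nsmul_eq_mul, mul_one, ← mul_sum]
    rw [hcard, sum_comm]
  have hrhalf : ∀ P, 1 / 2 ≤ r P := by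
    intro P
    have h1 : ∑ Q' ∈ X2, a P Q' ≤ X2.card := by
      calc ∑ Q' ∈ X2, a P Q' ≤ ∑ _Q' ∈ X2, (1 : ℝ) := sum_le_sum fun Q _ => ha1 P Q
        _ = X2.card := by simp
    have h2 := mul_le_mul_of_nonneg_left h1 hκ
    simp only [hr]
    rw [← hcard] at h2
    linarith
  have hrhalf' : ∀ Q, 1 / 2 ≤ r' Q := by
    intro Q
    have h1 : ∑ P' ∈ X1, a P' Q ≤ X1.card := by
      calc ∑ P' ∈ X1, a P' Q ≤ ∑ _P' ∈ X1, (1 : ℝ) := sum_le_sum fun P _ => ha1 P Q
        _ = X1.card := by simp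
    have h2 := mul_le_mul_of_nonneg_left h1 hκ
    simp only [hr']
    linarith
  have hRpos : ∀ P ∈ X1, 0 < R := by
    intro P hP
    rw [hR]
    exact sum_pos (fun P _ => by linarith [hrhalf P]) ⟨P, hP⟩
  have hnpos : ∀ P ∈ X1, ∀ Q ∈ X2, 0 < n P Q := by
    intro P hP Q hQ
    have h1 : r P ≤ κ * n P Q := hn1 P hP Q hQ
    have h2 := hrhalf P
    have h3 : 0 < κ * n P Q := by linarith
    by_contra hneg
    have h4 := mul_nonpos_iff.2 (Or.inl ⟨hκ, not_lt.1 hneg⟩)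
    linarith
  set w : α → α → ℝ := fun P Q => r P * r' Q / R / n P Q with hw
  have hw0 : ∀ P ∈ X1, ∀ Q ∈ X2, 0 ≤ w P Q := by
    intro P hP Q hQ
    have h1 := hrhalf P
    have h2 := hrhalf' Q
    have h3 := hRpos P hP
    have h4 := hnpos P hP Q hQ
    simp only [hw]
    positivity
  have hwn : ∀ P ∈ X1, ∀ Q ∈ X2, w P Q * n P Q = r P * r' Q / R := by
    intro P hP Q hQ
    simp only [hw]
    exact div_mul_cancel₀ _ (hnpos P hP Q hQ).ne'
  have hw1 : ∀ P ∈ X1, ∀ Q ∈ X2, w P Q ≤ κ * (r' Q / R) := by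
    intro P hP Q hQ
    have h4 := hnpos P hP Q hQ
    have h1 : r P ≤ κ * n P Q := hn1 P hP Q hQ
    simp only [hw]
    rw [div_le_iff₀ h4]
    have h5 : 0 ≤ r' Q / R := div_nonneg (by linarith [hrhalf' Q]) (hRpos P hP).le
    calc r P * r' Q / R = r P * (r' Q / R) := by ring
      _ ≤ (κ * n P Q) * (r' Q / R) := mul_le_mul_of_nonneg_right h1 h5
      _ = κ * (r' Q / R) * n P Q := by ring
  have hw2 : ∀ P ∈ X1, ∀ Q ∈ X2, w P Q ≤ κ * (r P / R) := by
    intro P hP Q hQ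
    have h4 := hnpos P hP Q hQ
    have h1 : r' Q ≤ κ * n P Q := hn2 P hP Q hQ
    simp only [hw]
    rw [div_le_iff₀ h4]
    have h5 : 0 ≤ r P / R := div_nonneg (by linarith [hrhalf P]) (hRpos P hP).le
    calc r P * r' Q / R = r' Q * (r P / R) := by ring
      _ ≤ (κ * n P Q) * (r P / R) := mul_le_mul_of_nonneg_right h1 h5
      _ = κ * (r P / R) * n P Q := by ring
  set F : α → α → ℝ := fun P S => ∑ Q ∈ X2, w P Q * (a P S * a S Q) with hF
  set F' : α → α → ℝ := fun S Q => ∑ P ∈ X1, w P Q * (a P S * a S Q) with hF'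
  set τ : α → ℝ := fun S => ∑ P ∈ X1, F P S with hτ
  have hτ' : ∀ S, ∑ Q ∈ X2, F' S Q = τ S := by
    intro S
    simp only [hτ, hF, hF']
    exact sum_comm
  have haa : ∀ P S Q, a P S * a S Q ≤ 1 := fun P S Q =>
    mul_le_one₀ (ha1 _ _) (ha0 _ _) (ha1 _ _)
  have haa0 : ∀ P S Q, 0 ≤ a P S * a S Q := fun P S Q => mul_nonneg (ha0 _ _) (ha0 _ _)
  have hF0 : ∀ P ∈ X1, ∀ S, 0 ≤ F P S := fun P hP S =>
    sum_nonneg fun Q hQ => mul_nonneg (hw0 P hP Q hQ) (haa0 P S Q)
  have hF'0 : ∀ Q ∈ X2, ∀ S, 0 ≤ F' S Q := fun Q hQ S =>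
    sum_nonneg fun P hP => mul_nonneg (hw0 P hP Q hQ) (haa0 P S Q)
  have hFκ : ∀ P ∈ X1, ∀ S, F P S ≤ κ := by
    intro P hP S
    calc F P S ≤ ∑ Q ∈ X2, κ * (r' Q / R) := by
          refine sum_le_sum fun Q hQ => ?_
          calc w P Q * (a P S * a S Q) ≤ w P Q * 1 :=
                mul_le_mul_of_nonneg_left (haa P S Q) (hw0 P hP Q hQ)
            _ ≤ κ * (r' Q / R) := by rw [mul_one]; exact hw1 P hP Q hQ
      _ = κ := by
          rw [← mul_sum, ← sum_div, hR', div_self (hRpos P hP).ne', mul_one]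
  have hF'κ : ∀ Q ∈ X2, ∀ S, F' S Q ≤ κ := by
    intro Q hQ S
    rcases X1.eq_empty_or_nonempty with h | ⟨P0, hP0⟩
    · simp only [hF', h, sum_empty]
      exact hκ
    calc F' S Q ≤ ∑ P ∈ X1, κ * (r P / R) := by
          refine sum_le_sum fun P hP => ?_
          calc w P Q * (a P S * a S Q) ≤ w P Q * 1 :=
                mul_le_mul_of_nonneg_left (haa P S Q) (hw0 P hP Q hQ)
            _ ≤ κ * (r P / R) := by rw [mul_one]; exact hw2 P hP Q hQ
      _ = κ := by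
          rw [← mul_sum, ← sum_div, ← hR, div_self (hRpos P0 hP0).ne', mul_one]
  have hτhalf : ∀ S, τ S ≤ 1 / 2 := by
    intro S
    calc τ S ≤ ∑ _P ∈ X1, κ := sum_le_sum fun P hP => hFκ P hP S
      _ = κ * X1.card := by rw [sum_const, nsmul_eq_mul, mul_comm]
      _ ≤ 1 / 2 := hκρ
  have hτ0 : ∀ S, 0 ≤ τ S := fun S => sum_nonneg fun P hP => hF0 P hP S
  have hFsum : ∀ P ∈ X1, ∑ S ∈ Y, F P S = r P := by
    intro P hP
    simp only [hF]
    rw [sum_comm]
    have h1 : ∀ Q ∈ X2, ∑ S ∈ Y, w P Q * (a P S * a S Q) = r P * (r' Q / R) := by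
      intro Q hQ
      rw [← mul_sum]
      have := hwn P hP Q hQ
      simp only [hn] at this
      rw [this]
      ring
    rw [sum_congr rfl h1, ← mul_sum, ← sum_div, hR', div_self (hRpos P hP).ne', mul_one]
  have hF'sum : ∀ Q ∈ X2, ∑ S ∈ Y, F' S Q = r' Q := by
    intro Q hQ
    have hne : X1.Nonempty := by
      rw [← card_pos, hcard, card_pos]
      exact ⟨Q, hQ⟩
    obtain ⟨P0, hP0⟩ := hne
    simp only [hF']
    rw [sum_comm]
    have h1 : ∀ P ∈ X1, ∑ S ∈ Y, w P Q * (a P S * a S Q) = r' Q * (r P / R) := by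
      intro P hP
      rw [← mul_sum]
      have := hwn P hP Q hQ
      simp only [hn] at this
      rw [this]
      ring
    rw [sum_congr rfl h1, ← mul_sum, ← sum_div, ← hR, div_self (hRpos P0 hP0).ne', mul_one]
  refine ⟨fun P Q => (if P ∈ X1 ∧ Q ∈ X2 then κ * a P Q else 0) +
    (if P ∈ X1 ∧ Q ∈ Y then F P Q else 0) + (if P ∈ Y ∧ Q ∈ X2 then F' P Q else 0) +
    (if P ∈ Y ∧ P = Q then 1 - τ P else 0), ?_, ?_, ?_, ?_, ?_, ?_, ?_⟩
  · intro P Q
    refine add_nonneg (add_nonneg (add_nonneg ?_ ?_) ?_) ?_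
    · split_ifs
      · exact mul_nonneg hκ (ha0 _ _)
      · exact le_rfl
    · split_ifs with h
      · exact hF0 P h.1 Q
      · exact le_rfl
    · split_ifs with h
      · exact hF'0 Q h.2 P
      · exact le_rfl
    · split_ifs
      · linarith [hτhalf P]
      · exact le_rfl
  · intro P Q h
    by_cases h1 : P ∈ X1 ∧ Q ∈ X2
    · refine ⟨⟨Or.inl h1.1, Or.inl h1.2⟩, Or.inr ?_⟩
      intro h0
      apply h
      have e2 : ¬ (P ∈ X1 ∧ Q ∈ Y) := fun h5 => h2Y Q h1.2 h5.2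
      have e3 : ¬ (P ∈ Y ∧ Q ∈ X2) := fun h5 => h1Y P h1.1 h5.1
      have e4 : ¬ (P ∈ Y ∧ P = Q) := fun h5 => h1Y P h1.1 h5.1
      show (if P ∈ X1 ∧ Q ∈ X2 then κ * a P Q else 0) + (if P ∈ X1 ∧ Q ∈ Y then F P Q else 0) +
        (if P ∈ Y ∧ Q ∈ X2 then F' P Q else 0) + (if P ∈ Y ∧ P = Q then 1 - τ P else 0) = 0
      rw [if_pos h1, if_neg e2, if_neg e3, if_neg e4, h0]
      ring
    by_cases h2 : P ∈ X1 ∧ Q ∈ Y
    · refine ⟨⟨Or.inl h2.1, Or.inr h2.2⟩, Or.inr ?_⟩
      intro h0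
      apply h
      have e3 : ¬ (P ∈ Y ∧ Q ∈ X2) := fun h5 => h1Y P h2.1 h5.1
      have e4 : ¬ (P ∈ Y ∧ P = Q) := fun h5 => h1Y P h2.1 h5.1
      have h3 : F P Q = 0 := by
        simp only [hF, h0, zero_mul, mul_zero, sum_const_zero]
      show (if P ∈ X1 ∧ Q ∈ X2 then κ * a P Q else 0) + (if P ∈ X1 ∧ Q ∈ Y then F P Q else 0) +
        (if P ∈ Y ∧ Q ∈ X2 then F' P Q else 0) + (if P ∈ Y ∧ P = Q then 1 - τ P else 0) = 0
      rw [if_neg h1, if_pos h2, if_neg e3, if_neg e4, h3]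
      ring
    by_cases h3 : P ∈ Y ∧ Q ∈ X2
    · refine ⟨⟨Or.inr h3.1, Or.inl h3.2⟩, Or.inr ?_⟩
      intro h0
      apply h
      have h4 : F' P Q = 0 := by
        simp only [hF', h0, mul_zero, sum_const_zero]
      have e4 : ¬ (P ∈ Y ∧ P = Q) := by
        rintro ⟨h6, rfl⟩
        exact h2Y P h3.2 h6
      show (if P ∈ X1 ∧ Q ∈ X2 then κ * a P Q else 0) + (if P ∈ X1 ∧ Q ∈ Y then F P Q else 0) +
        (if P ∈ Y ∧ Q ∈ X2 then F' P Q else 0) + (if P ∈ Y ∧ P = Q then 1 - τ P else 0) = 0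
      rw [if_neg h1, if_neg h2, if_pos h3, if_neg e4, h4]
      ring
    by_cases h4 : P ∈ Y ∧ P = Q
    · obtain ⟨h5, rfl⟩ := h4
      exact ⟨⟨Or.inr h5, Or.inr h5⟩, Or.inl rfl⟩
    · exfalso
      apply h
      show (if P ∈ X1 ∧ Q ∈ X2 then κ * a P Q else 0) + (if P ∈ X1 ∧ Q ∈ Y then F P Q else 0) +
        (if P ∈ Y ∧ Q ∈ X2 then F' P Q else 0) + (if P ∈ Y ∧ P = Q then 1 - τ P else 0) = 0
      rw [if_neg h1, if_neg h2, if_neg h3, if_neg h4]
      ring
  · rintro P (hP | hP)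
    · have hPY := h1Y P hP
      simp only [hP, hPY, true_and, false_and, if_false, add_zero, sum_add_distrib]
      rw [sum_ite_mem, sum_ite_mem, univ_inter, univ_inter, hFsum P hP, ← mul_sum]
      simp only [hr]
      ring
    · have hP1 : P ∉ X1 := fun h => h1Y P h hP
      simp only [hP, hP1, true_and, false_and, if_false, zero_add, sum_add_distrib]
      rw [sum_ite_mem, univ_inter, hτ' P, sum_ite_eq univ P (fun _ => 1 - τ P)]
      simp
  · rintro Q (hQ | hQ)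
    · have hQY := h2Y Q hQ
      simp only [hQ, hQY, and_true, and_false, if_false, add_zero, sum_add_distrib]
      have h5 : ∀ P, ¬ (P ∈ Y ∧ P = Q) := by
        rintro P ⟨h6, rfl⟩
        exact hQY h6
      simp only [h5, if_false, sum_const_zero, add_zero]
      rw [sum_ite_mem, sum_ite_mem, univ_inter, univ_inter, hF'sum Q hQ, ← mul_sum]
      simp only [hr']
      ring
    · have hQ2 : Q ∉ X2 := fun h => h2Y Q h hQ
      simp only [hQ, hQ2, and_true, and_false, if_false, zero_add, add_zero, sum_add_distrib]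
      rw [sum_ite_mem, univ_inter]
      have h5 : ∀ P, (if P ∈ Y ∧ P = Q then 1 - τ P else 0) = if P = Q then 1 - τ Q else 0 := by
        intro P
        by_cases h6 : P = Q
        · subst h6
          simp [hQ]
        · simp [h6]
      simp only [h5]
      rw [sum_ite_eq' univ Q (fun _ => 1 - τ Q)]
      simp [hτ]
  · intro P Q hPQ
    have h0 : ¬ (P ∈ Y ∧ P = Q) := fun h => hPQ h.2
    show (if P ∈ X1 ∧ Q ∈ X2 then κ * a P Q else 0) + (if P ∈ X1 ∧ Q ∈ Y then F P Q else 0) +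
        (if P ∈ Y ∧ Q ∈ X2 then F' P Q else 0) + (if P ∈ Y ∧ P = Q then 1 - τ P else 0) ≤ κ
    by_cases h1 : P ∈ X1 ∧ Q ∈ X2
    · have e2 : ¬ (P ∈ X1 ∧ Q ∈ Y) := fun h5 => h2Y Q h1.2 h5.2
      have e3 : ¬ (P ∈ Y ∧ Q ∈ X2) := fun h5 => h1Y P h1.1 h5.1
      rw [if_pos h1, if_neg e2, if_neg e3, if_neg h0, add_zero, add_zero, add_zero]
      calc κ * a P Q ≤ κ * 1 := mul_le_mul_of_nonneg_left (ha1 P Q) hκ
        _ = κ := mul_one κ
    by_cases h2 : P ∈ X1 ∧ Q ∈ Y
    · have e3 : ¬ (P ∈ Y ∧ Q ∈ X2) := fun h5 => h1Y P h2.1 h5.1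
      rw [if_neg h1, if_pos h2, if_neg e3, if_neg h0, add_zero, add_zero, zero_add]
      exact hFκ P h2.1 Q
    by_cases h3 : P ∈ Y ∧ Q ∈ X2
    · rw [if_neg h1, if_neg h2, if_pos h3, if_neg h0, add_zero, add_zero, zero_add]
      exact hF'κ Q h3.2 P
    · rw [if_neg h1, if_neg h2, if_neg h3, if_neg h0, add_zero, add_zero, add_zero]
      exact hκ
  · intro P Q hPQ h
    have h0 : ¬ (P ∈ Y ∧ P = Q) := fun h => hPQ h.2
    by_cases hP : P ∈ X1
    · exact Or.inl hP
    by_cases hQ : Q ∈ X2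
    · exact Or.inr hQ
    · exfalso
      apply h
      simp only [hP, hQ, h0, and_false, false_and, if_false, add_zero]
  · intro P hP
    have hP1 : P ∉ X1 := fun h => h1Y P h hP
    have hP2 : P ∉ X2 := fun h => h2Y P h hP
    simp only [hP, hP1, hP2, and_false, false_and, true_and, if_false, if_true, zero_add]
    linarith [hτhalf P]

theorem p_Q1 : S_Q1 := by
  intro α _ _ k A B C hk hN hA hrow hcol hBC hB
  classical
  have hkR : (1 : ℝ) ≤ k := by exact_mod_cast hk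
  set X1 : Finset α := univ.filter (fun P => B P ∧ ¬ C P) with hX1
  set X2 : Finset α := univ.filter (fun P => C P ∧ ¬ B P) with hX2
  set Y : Finset α := univ.filter (fun P => B P ∧ C P) with hY
  set a : α → α → ℝ := fun P Q => if A P Q then 1 else 0 with ha
  have ha0 : ∀ P Q, 0 ≤ a P Q := by
    intro P Q
    simp only [ha]
    split_ifs <;> norm_num
  have ha1 : ∀ P Q, a P Q ≤ 1 := by
    intro P Q
    simp only [ha]
    split_ifs <;> norm_num
  -- counting
  have hmisB : mis B = (univ.filter (fun x => ¬ B x)).card := by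
    unfold mis
    apply congrArg
    ext x
    simp only [mem_filter, mem_univ, true_and]
  have hmisC : mis C = (univ.filter (fun x => ¬ C x)).card := by
    unfold mis
    apply congrArg
    ext x
    simp only [mem_filter, mem_univ, true_and]
  have hc1 : X1.card + (univ.filter (fun x => ¬ B x ∧ ¬ C x)).card = mis C := by
    rw [hmisC, ← card_union_of_disjoint]
    · congr 1
      ext x
      simp only [hX1, mem_union, mem_filter, mem_univ, true_and]
      tauto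
    · rw [disjoint_left]
      intro x h1 h2
      simp only [hX1, mem_filter, mem_univ, true_and] at h1 h2
      exact h2.1 h1.1
  have hc2 : X2.card + (univ.filter (fun x => ¬ B x ∧ ¬ C x)).card = mis B := by
    rw [hmisB, ← card_union_of_disjoint]
    · congr 1
      ext x
      simp only [hX2, mem_union, mem_filter, mem_univ, true_and]
      tauto
    · rw [disjoint_left]
      intro x h1 h2
      simp only [hX2, mem_filter, mem_univ, true_and] at h1 h2
      exact h2.2 h1.1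
  have hcard : X1.card = X2.card := by omega
  have hX1k : X1.card ≤ k := by omega
  have hc3 : Y.card + X2.card + mis C = Fintype.card α := by
    rw [hmisC, ← card_union_of_disjoint]
    · rw [← card_univ, ← card_union_of_disjoint]
      · congr 1
        ext x
        simp only [hX2, hY, mem_union, mem_filter, mem_univ, true_and]
        tauto
      · rw [disjoint_left]
        intro x h1 h2
        simp only [hX2, hY, mem_union, mem_filter, mem_univ, true_and] at h1 h2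
        tauto
    · rw [disjoint_left]
      intro x h1 h2
      simp only [hX2, hY, mem_filter, mem_univ, true_and] at h1 h2
      exact h2.2 h1.1
  have hc4 : Y.card + X1.card + mis B = Fintype.card α := by omega
  have hmis1 : ∀ (p : α → Prop) (s : Finset α) (f : α → ℝ), (∀ x, f x = if p x then 1 else 0) →
      ∑ x ∈ s, (1 - f x) ≤ mis p := by
    intro p s f hf
    calc ∑ x ∈ s, (1 - f x) ≤ ∑ x, (1 - f x) := by
          refine sum_le_sum_of_subset_of_nonneg (subset_univ _) fun x _ _ => ?_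
          rw [hf]
          split_ifs <;> norm_num
      _ = ∑ x, (if ¬ p x then (1 : ℝ) else 0) := by
          refine sum_congr rfl fun x _ => ?_
          rw [hf]
          split_ifs <;> norm_num
      _ = mis p := by
          rw [sum_boole]
          unfold mis
          apply congrArg
          apply congrArg
          ext x
          simp only [mem_filter, mem_univ, true_and]
  have hNR : (5 : ℝ) * k ≤ Fintype.card α := by exact_mod_cast hN
  have hlow : ∀ P Q, (Y.card : ℝ) - ∑ S ∈ Y, (1 - a P S) - ∑ S ∈ Y, (1 - a S Q) ≤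
      ∑ S ∈ Y, a P S * a S Q := by
    intro P Q
    have h1 : (Y.card : ℝ) = ∑ _S ∈ Y, (1 : ℝ) := by simp
    rw [h1, ← sum_sub_distrib, ← sum_sub_distrib]
    refine sum_le_sum fun S _ => ?_
    nlinarith [mul_nonneg (sub_nonneg.2 (ha1 P S)) (sub_nonneg.2 (ha1 S Q))]
  obtain ⟨φ, h1, h2, h3, h4, h5, h6, h7⟩ := q1_core X1 X2 Y
    (by
      intro P h1 h2
      simp only [hX1, hY, mem_filter, mem_univ, true_and] at h1 h2
      exact h1.2 h2.2)
    (by
      intro P h1 h2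
      simp only [hX2, hY, mem_filter, mem_univ, true_and] at h1 h2
      exact h1.2 h2.1)
    a ha0 ha1 (1 / (2 * k)) (by positivity) hcard
    (by
      have h1 : (X1.card : ℝ) ≤ k := by exact_mod_cast hX1k
      rw [div_mul_eq_mul_div, one_mul, div_le_iff₀ (by positivity)]
      linarith)
    (by
      intro P _ Q _
      have h1 := hlow P Q
      have h2 : ∑ S ∈ Y, (1 - a P S) + ∑ S ∈ X2, (1 - a P S) ≤ k := by
        rw [← sum_union (by
          rw [disjoint_left]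
          intro x h1 h2
          simp only [hX2, hY, mem_filter, mem_univ, true_and] at h1 h2
          exact h2.2 h1.1)]
        refine (hmis1 (A P) _ (a P) (fun x => rfl)).trans ?_
        exact_mod_cast hrow P
      have h3 : ∑ S ∈ Y, (1 - a S Q) ≤ k := by
        refine (hmis1 (fun S => A S Q) _ (fun S => a S Q) (fun x => rfl)).trans ?_
        exact_mod_cast hcol Q
      have h4 : ∑ S ∈ X2, (1 - a P S) = X2.card - ∑ S ∈ X2, a P S := by
        rw [sum_sub_distrib]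
        simp
      have h5 : (Y.card : ℝ) + X2.card + mis C = Fintype.card α := by exact_mod_cast hc3
      have h6 : (mis C : ℝ) ≤ k := by
        rw [hBC]
        exact_mod_cast hB
      have h7 : (2 : ℝ) * k ≤ ∑ S ∈ Y, a P S * a S Q + ∑ S ∈ X2, a P S := by linarith
      have h8 : (1 : ℝ) ≤ 1 / (2 * k) * (∑ S ∈ Y, a P S * a S Q + ∑ S ∈ X2, a P S) := by
        rw [div_mul_eq_mul_div, one_mul, le_div_iff₀ (by positivity)]
        linarith
      rw [mul_add] at h8
      linarith)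
    (by
      intro P _ Q _
      have h1 := hlow P Q
      have h2 : ∑ S ∈ Y, (1 - a S Q) + ∑ S ∈ X1, (1 - a S Q) ≤ k := by
        rw [← sum_union (by
          rw [disjoint_left]
          intro x h1 h2
          simp only [hX1, hY, mem_filter, mem_univ, true_and] at h1 h2
          exact h2.2 h1.2)]
        refine (hmis1 (fun S => A S Q) _ (fun S => a S Q) (fun x => rfl)).trans ?_
        exact_mod_cast hcol Q
      have h3 : ∑ S ∈ Y, (1 - a P S) ≤ k := by
        refine (hmis1 (A P) _ (a P) (fun x => rfl)).trans ?_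
        exact_mod_cast hrow P
      have h4 : ∑ S ∈ X1, (1 - a S Q) = X1.card - ∑ S ∈ X1, a S Q := by
        rw [sum_sub_distrib]
        simp
      have h5 : (Y.card : ℝ) + X1.card + mis B = Fintype.card α := by exact_mod_cast hc4
      have h6 : (mis B : ℝ) ≤ k := by exact_mod_cast hB
      have h7 : (2 : ℝ) * k ≤ ∑ S ∈ Y, a P S * a S Q + ∑ S ∈ X1, a S Q := by linarith
      have h8 : (1 : ℝ) ≤ 1 / (2 * k) * (∑ S ∈ Y, a P S * a S Q + ∑ S ∈ X1, a S Q) := by
        rw [div_mul_eq_mul_div, one_mul, le_div_iff₀ (by positivity)]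
        linarith
      rw [mul_add] at h8
      linarith)
  have mX1 : ∀ P, P ∈ X1 ↔ B P ∧ ¬ C P := fun P => by simp [hX1]
  have mX2 : ∀ P, P ∈ X2 ↔ C P ∧ ¬ B P := fun P => by simp [hX2]
  have mY : ∀ P, P ∈ Y ↔ B P ∧ C P := fun P => by simp [hY]
  refine ⟨φ, h1, ?_, ?_, ?_, h5, ?_, ?_⟩
  · intro P Q h
    obtain ⟨⟨h8, h9⟩, h10⟩ := h2 P Q h
    rw [mX1, mY] at h8
    rw [mX2, mY] at h9
    refine ⟨?_, by tauto, by tauto⟩
    rcases h10 with rfl | h10
    · exact hA P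
    · by_contra h11
      exact h10 (if_neg h11)
  · intro P h
    apply h3
    rw [mX1, mY]
    tauto
  · intro Q h
    apply h4
    rw [mX2, mY]
    tauto
  · intro P Q hPQ h
    have := h6 P Q hPQ h
    rw [mX1, mX2] at this
    tauto
  · intro P h8 h9
    exact h7 P ((mY P).2 ⟨h8, h9⟩)

end DH
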