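import Pool.Agent.Lib.MP_fe8cb7_co.h30.StQ

/-! [Q2] the family for a perfect matching. -/

open Finset

namespace DH

namespace Q2

theorem mis_eq {α : Type} [Fintype α] (p : α → Prop) [DecidablePred fun x => ¬ p x] :
    mis p = (univ.filter (fun x => ¬ p x)).card := by
  unfold mis
  apply congrArg card
  ext x
  simp only [mem_filter]

theorem mis_comp {α : Type} [Fintype α] (σ : Equiv.Perm α) (p : α → Prop) :
    mis (fun x => p (σ x)) = mis p := by
  classical
  rw [mis_eq, mis_eq]
  refine card_bij (fun x _ => σ x) ?_ ?_ ?_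
  · intro x hx
    rw [mem_filter] at hx ⊢
    exact ⟨mem_univ _, hx.2⟩
  · intro x _ y _ h
    exact σ.injective h
  · intro y hy
    rw [mem_filter] at hy
    refine ⟨σ.symm y, ?_, σ.apply_symm_apply y⟩
    rw [mem_filter]
    refine ⟨mem_univ _, ?_⟩
    rw [σ.apply_symm_apply]
    exact hy.2

open Classical in
theorem sum_mis {β : Type} [Fintype β] (p : β → Prop) (c : ℝ) :
    ∑ v, (if p v then 0 else c) = mis p * c := by
  rw [mis_eq]
  have h : ∀ v, (if p v then 0 else c) = if ¬ p v then c else 0 := by
    intro v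
    by_cases hv : p v
    · simp [hv]
    · simp [hv]
  rw [sum_congr rfl fun v _ => h v, ← sum_filter, sum_const, nsmul_eq_mul]

end Q2

theorem p_Q2 : S_Q2 := by
  classical
  intro hQ1 α β _ _ _ _ k A B C σ hk hN hyp hσ
  have hfl : ∀ v, ∃ φ, Flw k (fun P Q => A P (σ Q)) (B v) (fun P => C v (σ P)) φ := by
    intro v
    refine hQ1 α k (fun P Q => A P (σ Q)) (B v) (fun P => C v (σ P)) hk hN hσ ?_ ?_ ?_ (hyp.b1 v)
    · intro P
      rw [Q2.mis_comp σ (A P)]
      exact hyp.a1 P
    · intro Q
      exact hyp.a2 (σ Q)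
    · rw [Q2.mis_comp σ (C v)]
      exact hyp.c1 v
  choose φ hφ using hfl
  have hkR : (0 : ℝ) < k := by exact_mod_cast hk
  refine ⟨fun v x y => φ v x (σ.symm y), ⟨?_, ?_, ?_, ?_⟩, ?_, ?_, ?_⟩
  · intro v x y
    exact (hφ v).nonneg _ _
  · intro v x y h
    obtain ⟨h1, h2, h3⟩ := (hφ v).supp _ _ h
    simp only [σ.apply_symm_apply] at h1 h3
    exact ⟨h1, h2, h3⟩
  · intro v x h
    rw [Equiv.sum_comp σ.symm (fun Q => φ v x Q)]
    exact (hφ v).row x h
  · intro v y h
    refine (hφ v).col (σ.symm y) ?_
    simp only [σ.apply_symm_apply]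
    exact h
  · intro x y hxy
    have hne : x ≠ σ.symm y := by
      intro h
      apply hxy
      rw [h, σ.apply_symm_apply]
    have h1 : ∀ v ∈ (univ : Finset β), φ v x (σ.symm y) ≤
        (if C v (σ x) then 0 else 1 / (2 * (k : ℝ))) +
          (if B v (σ.symm y) then 0 else 1 / (2 * (k : ℝ))) := by
      intro v _
      have hpos : (0 : ℝ) ≤ 1 / (2 * (k : ℝ)) := by positivity
      have hoff := (hφ v).off _ _ hne
      by_cases h0 : φ v x (σ.symm y) = 0
      · rw [h0]
        split_ifs <;> linarith
      · rcases (hφ v).off0 _ _ hne h0 with h2 | h2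
        · rw [if_neg h2]
          split_ifs <;> linarith
        · rw [if_neg h2]
          split_ifs <;> linarith
    refine (sum_le_sum h1).trans ?_
    rw [sum_add_distrib, Q2.sum_mis (fun v => C v (σ x)), Q2.sum_mis (fun v => B v (σ.symm y))]
    have h2 : mis (fun v => C v (σ x)) ≤ k := by
      rw [hyp.c2]
      exact hyp.a2 _
    have h3 : mis (fun v => B v (σ.symm y)) ≤ k := by
      rw [hyp.b2]
      exact hyp.a1 _
    have h2' : (mis (fun v => C v (σ x)) : ℝ) ≤ k := by exact_mod_cast h2
    have h3' : (mis (fun v => B v (σ.symm y)) : ℝ) ≤ k := by exact_mod_cast h3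
    rw [← add_mul, mul_one_div, div_le_one (by positivity)]
    linarith
  · intro x
    have h1 : ∀ v ∈ (univ : Finset β), 1 / 2 - ((if C v (σ x) then 0 else (1 / 2 : ℝ)) +
        (if B v x then 0 else (1 / 2 : ℝ))) ≤ φ v x (σ.symm (σ x)) := by
      intro v _
      rw [σ.symm_apply_apply]
      have hnn := (hφ v).nonneg x x
      by_cases h2 : C v (σ x)
      · by_cases h3 : B v x
        · have := (hφ v).diag x h3 h2
          rw [if_pos h2, if_pos h3]
          linarith
        · rw [if_pos h2, if_neg h3]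
          linarith
      · rw [if_neg h2]
        split_ifs <;> linarith
    refine le_trans ?_ (sum_le_sum h1)
    rw [sum_sub_distrib, sum_add_distrib, Q2.sum_mis (fun v => C v (σ x)),
      Q2.sum_mis (fun v => B v x), sum_const, card_univ, nsmul_eq_mul, hyp.card]
    have h2 : mis (fun v => C v (σ x)) ≤ k := by
      rw [hyp.c2]
      exact hyp.a2 _
    have h3 : mis (fun v => B v x) ≤ k := by
      rw [hyp.b2]
      exact hyp.a1 _
    have h2' : (mis (fun v => C v (σ x)) : ℝ) ≤ k := by exact_mod_cast h2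
    have h3' : (mis (fun v => B v x) : ℝ) ≤ k := by exact_mod_cast h3
    linarith
  · intro v x y
    have hpos : (0 : ℝ) ≤ 1 / (2 * (k : ℝ)) := by positivity
    by_cases hxy : y = σ x
    · rw [if_pos hxy]
      have h1 : φ v x (σ.symm y) ≤ 1 := by
        by_cases hB : B v x
        · rw [← (hφ v).row x hB]
          exact single_le_sum (f := fun Q => φ v x Q) (fun Q _ => (hφ v).nonneg x Q) (mem_univ _)
        · have h0 : φ v x (σ.symm y) = 0 := by
            by_contra h0
            exact hB ((hφ v).supp _ _ h0).2.1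
          rw [h0]
          norm_num
      linarith
    · rw [if_neg hxy, zero_add]
      refine (hφ v).off _ _ ?_
      intro h
      apply hxy
      rw [h, σ.apply_symm_apply]

end DH
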