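import Pool.Agent.Lib.MP_fe8cb7_co.h30.StQ

/-! [Q3] a doubly stochastic matrix with small entries. -/

open Finset

namespace DH

namespace Q3

theorem mis_eq {α : Type} [Fintype α] (p : α → Prop) [DecidablePred fun x => ¬ p x] :
    mis p = (univ.filter (fun x => ¬ p x)).card := by
  unfold mis
  apply congrArg card
  ext x
  simp only [mem_filter]

theorem mis_add {α : Type} [Fintype α] (p : α → Prop) [DecidablePred p] :
    mis p + (univ.filter (fun x => p x)).card = Fintype.card α := by
  rw [mis_eq p, add_comm, card_filter_add_card_filter_not, card_univ]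

/-- the relation without the permutations which are already chosen -/
def rel {α : Type} (A : α → α → Prop) (σ : ℕ → Equiv.Perm α) (s : ℕ) (x y : α) : Prop :=
  A x y ∧ ∀ i < s, σ i x ≠ y

theorem row_le {α : Type} [Fintype α] [DecidableEq α] {k : ℕ} {A : α → α → Prop}
    (σ : ℕ → Equiv.Perm α) (s : ℕ) (x : α) (h : mis (A x) ≤ k) : mis (rel A σ s x) ≤ k + s := by
  classical
  have h1 : (univ.filter (fun y => ¬ rel A σ s x y)) ⊆
      (univ.filter (fun y => ¬ A x y)) ∪ (range s).image (fun i => σ i x) := by
    intro y hy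
    rw [mem_filter] at hy
    rw [mem_union, mem_filter, mem_image]
    by_cases hA : A x y
    · right
      have h2 : ¬ ∀ i < s, σ i x ≠ y := fun h => hy.2 ⟨hA, h⟩
      push Not at h2
      obtain ⟨i, hi, h3⟩ := h2
      exact ⟨i, mem_range.2 hi, h3⟩
    · exact Or.inl ⟨mem_univ _, hA⟩
  have h2 := card_le_card h1
  have h3 := card_union_le (univ.filter (fun y => ¬ A x y)) ((range s).image (fun i => σ i x))
  have h4 : ((range s).image (fun i => σ i x)).card ≤ s := by
    have := card_image_le (s := range s) (f := fun i => σ i x)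
    rwa [card_range] at this
  have h5 : mis (A x) = (univ.filter (fun y => ¬ A x y)).card := mis_eq _
  have h6 : mis (rel A σ s x) = (univ.filter (fun y => ¬ rel A σ s x y)).card := mis_eq _
  omega

theorem col_le {α : Type} [Fintype α] [DecidableEq α] {k : ℕ} {A : α → α → Prop}
    (σ : ℕ → Equiv.Perm α) (s : ℕ) (y : α) (h : mis (fun x => A x y) ≤ k) :
    mis (fun x => rel A σ s x y) ≤ k + s := by
  classical
  have h1 : (univ.filter (fun x => ¬ rel A σ s x y)) ⊆
      (univ.filter (fun x => ¬ A x y)) ∪ (range s).image (fun i => (σ i).symm y) := by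
    intro x hx
    rw [mem_filter] at hx
    rw [mem_union, mem_filter, mem_image]
    by_cases hA : A x y
    · right
      have h2 : ¬ ∀ i < s, σ i x ≠ y := fun h => hx.2 ⟨hA, h⟩
      push Not at h2
      obtain ⟨i, hi, h3⟩ := h2
      exact ⟨i, mem_range.2 hi, by rw [← h3, Equiv.symm_apply_apply]⟩
    · exact Or.inl ⟨mem_univ _, hA⟩
  have h2 := card_le_card h1
  have h3 := card_union_le (univ.filter (fun x => ¬ A x y))
    ((range s).image (fun i => (σ i).symm y))
  have h4 : ((range s).image (fun i => (σ i).symm y)).card ≤ s := by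
    have := card_image_le (s := range s) (f := fun i => (σ i).symm y)
    rwa [card_range] at this
  have h5 : mis (fun x => A x y) = (univ.filter (fun x => ¬ A x y)).card := mis_eq _
  have h6 : mis (fun x => rel A σ s x y) = (univ.filter (fun x => ¬ rel A σ s x y)).card :=
    mis_eq _
  omega

/-- Hall -/
theorem hall {α : Type} [Fintype α] [DecidableEq α] (m : ℕ) (A : α → α → Prop)
    (hm : 2 * m ≤ Fintype.card α) (h1 : ∀ x, mis (A x) ≤ m)
    (h2 : ∀ y, mis (fun x => A x y) ≤ m) : ∃ π : Equiv.Perm α, ∀ x, A x (π x) := by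
  classical
  have key : ∀ s : Finset α, s.card ≤ (s.biUnion (fun x => univ.filter (fun y => A x y))).card := by
    intro s
    rcases s.eq_empty_or_nonempty with rfl | ⟨x0, hx0⟩
    · simp
    · by_cases hs : s.card + m ≤ Fintype.card α
      · have h3 : univ.filter (fun y => A x0 y) ⊆
            s.biUnion (fun x => univ.filter (fun y => A x y)) := fun y hy =>
          mem_biUnion.2 ⟨x0, hx0, hy⟩
        have h4 := card_le_card h3
        have h5 : mis (A x0) + (univ.filter (fun y => A x0 y)).card = _ := mis_add (A x0)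
        have h6 := h1 x0
        omega
      · have h3 : s.biUnion (fun x => univ.filter (fun y => A x y)) = univ := by
          rw [eq_univ_iff_forall]
          intro y
          by_contra hy
          have h4 : s ⊆ univ.filter (fun x => ¬ A x y) := by
            intro x hx
            rw [mem_filter]
            refine ⟨mem_univ _, fun hA => hy ?_⟩
            exact mem_biUnion.2 ⟨x, hx, mem_filter.2 ⟨mem_univ _, hA⟩⟩
          have h5 := card_le_card h4
          have h6 : mis (fun x => A x y) = (univ.filter (fun x => ¬ A x y)).card := mis_eq _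
          have h7 := h2 y
          omega
        rw [h3]
        exact card_le_univ s
  obtain ⟨f, hf1, hf2⟩ := (Finset.all_card_le_biUnion_card_iff_exists_injective
    (fun x : α => univ.filter (fun y => A x y))).1 key
  refine ⟨Equiv.ofBijective f (Finite.injective_iff_bijective.1 hf1), fun x => ?_⟩
  exact (mem_filter.1 (hf2 x)).2

theorem perms {α : Type} [Fintype α] [DecidableEq α] (k : ℕ) (A : α → α → Prop)
    (h1 : ∀ x, mis (A x) ≤ k) (h2 : ∀ y, mis (fun x => A x y) ≤ k) (t : ℕ)
    (ht : 2 * (k + t) ≤ Fintype.card α + 2) : ∀ s ≤ t, ∃ σ : ℕ → Equiv.Perm α,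
      (∀ i < s, ∀ x, A x (σ i x)) ∧ ∀ i < s, ∀ j < s, i ≠ j → ∀ x, σ i x ≠ σ j x := by
  intro s
  induction s with
  | zero =>
    intro _
    exact ⟨fun _ => 1, fun i hi => absurd hi (Nat.not_lt_zero _),
      fun i hi => absurd hi (Nat.not_lt_zero _)⟩
  | succ s ih =>
    intro hs
    obtain ⟨σ, hσ1, hσ2⟩ := ih (by omega)
    obtain ⟨π, hπ⟩ := hall (k + s) (rel A σ s) (by omega) (fun x => row_le σ s x (h1 x))
      (fun y => col_le σ s y (h2 y))
    refine ⟨fun i => if i = s then π else σ i, ?_, ?_⟩
    · intro i hi x
      by_cases his : i = s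
      · simp only [his, if_true]
        exact (hπ x).1
      · simp only [his, if_false]
        exact hσ1 i (by omega) x
    · intro i hi j hj hij x
      by_cases his : i = s
      · have hjs : j ≠ s := fun h => hij (his.trans h.symm)
        simp only [his, hjs, if_true, if_false]
        exact fun h => (hπ x).2 j (by omega) h.symm
      · by_cases hjs : j = s
        · simp only [his, hjs, if_true, if_false]
          exact (hπ x).2 i (by omega)
        · simp only [his, hjs, if_false]
          exact hσ2 i (by omega) j (by omega) hij x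

end Q3

theorem p_Q3 : S_Q3 := by
  classical
  intro α _ _ k A hN hk h1 h2
  obtain ⟨t, ht⟩ : ∃ t, t = (Fintype.card α + 3) / 4 := ⟨_, rfl⟩
  have ht0 : 0 < t := by omega
  have ht4 : Fintype.card α ≤ 4 * t := by omega
  obtain ⟨σ, hσ1, hσ2⟩ := Q3.perms k A h1 h2 t (by omega) t le_rfl
  have htR : (0 : ℝ) < t := by exact_mod_cast ht0
  have hNR : (0 : ℝ) < Fintype.card α := by
    have : 0 < Fintype.card α := by omega
    exact_mod_cast this
  refine ⟨fun x y => (1 / (t : ℝ)) * ∑ i ∈ range t, if σ i x = y then 1 else 0, ?_⟩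
  refine ⟨?_, ?_, ?_, ?_, ?_⟩
  · intro x y
    apply mul_nonneg (by positivity)
    apply sum_nonneg
    intro i _
    split_ifs <;> norm_num
  · intro x y h
    have h3 : ∑ i ∈ range t, (if σ i x = y then (1 : ℝ) else 0) ≠ 0 := fun h0 => h (by
      simp only [h0, mul_zero])
    obtain ⟨i, hi, h4⟩ := exists_ne_zero_of_sum_ne_zero h3
    have h5 : σ i x = y := by
      by_contra h5
      exact h4 (if_neg h5)
    rw [← h5]
    exact hσ1 i (mem_range.1 hi) x
  · intro x
    rw [← mul_sum, sum_comm]
    have h3 : ∀ i ∈ range t, ∑ y, (if σ i x = y then (1 : ℝ) else 0) = 1 := by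
      intro i _
      rw [sum_ite_eq]
      simp
    rw [sum_congr rfl h3, sum_const, card_range, nsmul_eq_mul, mul_one]
    field_simp
  · intro y
    rw [← mul_sum, sum_comm]
    have h3 : ∀ i ∈ range t, ∑ x, (if σ i x = y then (1 : ℝ) else 0) = 1 := by
      intro i _
      rw [sum_eq_single ((σ i).symm y)]
      · rw [if_pos (Equiv.apply_symm_apply _ _)]
      · intro b _ hb
        rw [if_neg]
        intro h
        apply hb
        rw [← h, Equiv.symm_apply_apply]
      · intro h
        exact absurd (mem_univ _) h
    rw [sum_congr rfl h3, sum_const, card_range, nsmul_eq_mul, mul_one]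
    field_simp
  · intro x y
    have h3 : ∑ i ∈ range t, (if σ i x = y then (1 : ℝ) else 0) ≤ 1 := by
      by_cases h : ∃ i ∈ range t, σ i x = y
      · obtain ⟨i, hi, h4⟩ := h
        rw [sum_eq_single i]
        · rw [if_pos h4]
        · intro j hj hji
          rw [if_neg]
          intro h5
          exact hσ2 j (mem_range.1 hj) i (mem_range.1 hi) hji x (h5.trans h4.symm)
        · intro h5
          exact absurd hi h5
      · rw [sum_eq_zero]
        · norm_num
        · intro i hi
          rw [if_neg]
          exact fun h5 => h ⟨i, hi, h5⟩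
    have h4 : (1 : ℝ) / t ≤ 4 / Fintype.card α := by
      rw [div_le_div_iff₀ htR hNR]
      have : ((Fintype.card α : ℕ) : ℝ) ≤ 4 * t := by exact_mod_cast ht4
      linarith
    calc (1 / (t : ℝ)) * ∑ i ∈ range t, (if σ i x = y then (1 : ℝ) else 0)
        ≤ (1 / (t : ℝ)) * 1 := mul_le_mul_of_nonneg_left h3 (by positivity)
      _ ≤ 4 / Fintype.card α := by rw [mul_one]; exact h4

end DH
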