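import Pool.Agent.Lib.MP_fe8cb7_co.h30.StQ

open Finset

namespace DH

theorem p_Q4 : S_Q4 := by
  classical
  intro h1 h2 α β _ dα _ dβ k A B C p hk h5 h10 hH hp
  -- Birkhoff
  have hM : (Matrix.of p) ∈ doublyStochastic ℝ α := by
    rw [mem_doublyStochastic_iff_sum]
    exact ⟨fun x y => hp.nonneg x y, fun x => hp.row x, fun y => hp.col y⟩
  obtain ⟨w, hw0, hw1, hwM⟩ := exists_eq_sum_perm_of_mem_doublyStochastic hM
  have hpw : ∀ x y, p x y = ∑ σ : Equiv.Perm α, w σ * (if σ x = y then 1 else 0) := by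
    intro x y
    have h := congrFun (congrFun hwM x) y
    rw [Matrix.sum_apply] at h
    rw [Matrix.of_apply] at h
    rw [← h]
    refine Finset.sum_congr rfl fun σ _ => ?_
    rw [Matrix.smul_apply, smul_eq_mul]
    congr 1
    simp only [Equiv.Perm.permMatrix, PEquiv.toMatrix_apply, Equiv.toPEquiv_apply,
      Option.mem_some_iff, Option.mem_def, Option.some.injEq]
  have hple : ∀ (σ : Equiv.Perm α) x y, σ x = y → w σ ≤ p x y := by
    intro σ x y hxy
    rw [hpw x y]
    have hs := Finset.single_le_sum (s := (Finset.univ : Finset (Equiv.Perm α)))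
      (f := fun σ => w σ * (if σ x = y then (1:ℝ) else 0))
      (fun τ _ => mul_nonneg (hw0 τ) (by split_ifs <;> norm_num)) (Finset.mem_univ σ)
    simpa [hxy] using hs
  have hA : ∀ σ : Equiv.Perm α, w σ ≠ 0 → ∀ x, A x (σ x) := by
    intro σ hσ x
    apply hp.supp x (σ x)
    have h3 := hple σ x (σ x) rfl
    have h4 : 0 < w σ := lt_of_le_of_ne (hw0 σ) (Ne.symm hσ)
    linarith
  -- the families
  have hex : ∀ σ : Equiv.Perm α, ∃ μ : β → α → α → ℝ, w σ ≠ 0 → (IsFam A B C μ ∧
      (∀ x y, y ≠ σ x → ∑ v, μ v x y ≤ 1) ∧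
      (∀ x, ((Fintype.card α : ℝ) - 2 * k) / 2 ≤ ∑ v, μ v x (σ x)) ∧
      ∀ v x y, μ v x y ≤ (if y = σ x then 1 else 0) + 1 / (2 * k)) := by
    intro σ
    by_cases hσ : w σ = 0
    · exact ⟨fun _ _ _ => 0, fun h => absurd hσ h⟩
    · obtain ⟨μ, hμ, a1, a2, a3⟩ := h2 h1 α β k A B C σ hk h5 hH (hA σ hσ)
      refine ⟨μ, fun _ => ⟨hμ, a1, a2, ?_⟩⟩
      intro v x y
      have := a3 v x y
      by_cases hy : y = σ x
      · simp only [hy, if_true] at this ⊢; exact this
      · simp only [hy, if_false] at this ⊢; exact this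
  choose M hMσ using hex
  have hN : (0:ℝ) < Fintype.card α := by
    have : 0 < Fintype.card α := by omega
    exact_mod_cast this
  have hkR : (1:ℝ) ≤ k := by exact_mod_cast hk
  have h10R : (Fintype.card α : ℝ) ≤ 10 * k := by exact_mod_cast h10
  have h5R : (5:ℝ) * k ≤ Fintype.card α := by exact_mod_cast h5
  have hload : ∀ x y, ∑ v, ∑ σ : Equiv.Perm α, w σ * M σ v x y =
      ∑ σ : Equiv.Perm α, w σ * ∑ v, M σ v x y := by
    intro x y
    rw [Finset.sum_comm]
    exact Finset.sum_congr rfl fun σ _ => by rw [Finset.mul_sum]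
  refine ⟨fun v x y => ∑ σ : Equiv.Perm α, w σ * M σ v x y, ⟨?_, ?_, ?_, ?_⟩, ?_, ?_, ?_⟩
  · intro v x y
    refine Finset.sum_nonneg fun σ _ => ?_
    by_cases hσ : w σ = 0
    · rw [hσ, zero_mul]
    · exact mul_nonneg (hw0 σ) ((hMσ σ hσ).1.nonneg v x y)
  · intro v x y hne
    obtain ⟨σ, -, hσ⟩ := Finset.exists_ne_zero_of_sum_ne_zero hne
    have hσ1 : w σ ≠ 0 := left_ne_zero_of_mul hσ
    exact (hMσ σ hσ1).1.supp v x y (right_ne_zero_of_mul hσ)
  · intro v x hB
    rw [Finset.sum_comm, ← hw1]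
    refine Finset.sum_congr rfl fun σ _ => ?_
    rw [← Finset.mul_sum]
    by_cases hσ : w σ = 0
    · rw [hσ, zero_mul]
    · rw [(hMσ σ hσ).1.row v x hB, mul_one]
  · intro v y hC
    rw [Finset.sum_comm, ← hw1]
    refine Finset.sum_congr rfl fun σ _ => ?_
    rw [← Finset.mul_sum]
    by_cases hσ : w σ = 0
    · rw [hσ, zero_mul]
    · rw [(hMσ σ hσ).1.col v y hC, mul_one]
  · intro v x y
    have hb : ∑ σ : Equiv.Perm α, w σ * M σ v x y ≤
        ∑ σ : Equiv.Perm α, (w σ * (if σ x = y then 1 else 0) + w σ * (1 / (2 * (k:ℝ)))) := by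
      refine Finset.sum_le_sum fun σ _ => ?_
      by_cases hσ : w σ = 0
      · rw [hσ]; simp
      · rw [← mul_add]
        refine mul_le_mul_of_nonneg_left ?_ (hw0 σ)
        have h := (hMσ σ hσ).2.2.2 v x y
        by_cases hy : σ x = y
        · rw [if_pos hy]; rw [if_pos hy.symm] at h; exact h
        · rw [if_neg hy]; rw [if_neg (fun h' => hy h'.symm)] at h; exact h
    rw [Finset.sum_add_distrib, ← hpw x y, ← Finset.sum_mul, hw1, one_mul] at hb
    have h6 := hp.le x y
    have h7 : 1 / (2 * (k:ℝ)) ≤ 5 / Fintype.card α := by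
      rw [div_le_div_iff₀ (by positivity) hN]; linarith
    have h8 : (4:ℝ) / Fintype.card α + 5 / Fintype.card α ≤ 20 / Fintype.card α := by
      rw [← add_div]
      exact div_le_div_of_nonneg_right (by norm_num) hN.le
    linarith
  · intro x y hxy
    rw [hload x y, ← hw1]
    refine Finset.sum_le_sum fun σ _ => ?_
    by_cases hσ : w σ = 0
    · rw [hσ, zero_mul]
    · have hne : y ≠ σ x := by
        intro h
        have h3 := hple σ x y h.symm
        rw [hxy] at h3
        exact hσ (le_antisymm h3 (hw0 σ))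
      have h4 := (hMσ σ hσ).2.1 x y hne
      calc w σ * ∑ v, M σ v x y ≤ w σ * 1 := mul_le_mul_of_nonneg_left h4 (hw0 σ)
        _ = w σ := mul_one _
  · intro x y hxy
    rw [hload x y]
    have hb : ∑ σ : Equiv.Perm α,
        (w σ * (if σ x = y then 1 else 0)) * (((Fintype.card α : ℝ) - 2 * k) / 2) ≤
        ∑ σ : Equiv.Perm α, w σ * ∑ v, M σ v x y := by
      refine Finset.sum_le_sum fun σ _ => ?_
      by_cases hσ : w σ = 0
      · rw [hσ]; simp
      · rw [mul_assoc]
        refine mul_le_mul_of_nonneg_left ?_ (hw0 σ)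
        by_cases hy : σ x = y
        · rw [if_pos hy, one_mul]
          have h := (hMσ σ hσ).2.2.1 x
          rw [hy] at h; exact h
        · rw [if_neg hy, zero_mul]
          exact Finset.sum_nonneg fun v _ => (hMσ σ hσ).1.nonneg v x y
    rw [← Finset.sum_mul, ← hpw x y, hxy] at hb
    refine le_trans ?_ hb
    rw [div_mul_div_comm, le_div_iff₀ (by positivity)]
    linarith

end DH
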