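import Pool.Agent.Lib.MP_fe8cb7_co.h30.StQ

/-! # [Q5] the variational argument (helper62 for helper30) -/

open Finset Filter Topology

namespace DH

namespace Q5aux

variable {α β : Type} [Fintype α] [DecidableEq α] [Fintype β] [DecidableEq β]

/-- the set of bounded families -/
def KK (A : α → α → Prop) (B C : β → α → Prop) (D : ℝ) : Set (β → α → α → ℝ) :=
  {μ | IsFam A B C μ ∧ ∀ v x y, μ v x y ≤ D}

/-- the set of admissible matrices -/
def PP (A : α → α → Prop) (E : ℝ) : Set (α → α → ℝ) := {p | DSq A E p}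

/-- the load map -/
def Lam (α β : Type) [Fintype α] [Fintype β] : (β → α → α → ℝ) →ₗ[ℝ] (α → α → ℝ) where
  toFun μ := fun x y => ∑ v, μ v x y
  map_add' μ ν := by
    funext x y
    simp [Finset.sum_add_distrib]
  map_smul' c μ := by
    funext x y
    simp [Finset.mul_sum]

omit [DecidableEq α] [DecidableEq β] in
theorem Lam_apply (μ : β → α → α → ℝ) (x y : α) : Lam α β μ x y = ∑ v, μ v x y := rfl

omit [DecidableEq α] [DecidableEq β] in
theorem Lam_cont : Continuous (Lam α β) := by
  refine continuous_pi fun x => continuous_pi fun y => ?_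
  show Continuous fun μ : β → α → α → ℝ => ∑ v, μ v x y
  fun_prop

omit [DecidableEq α] [DecidableEq β] in
theorem KK_eq (A : α → α → Prop) (B C : β → α → Prop) (D : ℝ) :
    KK A B C D = {μ | (∀ v x y, 0 ≤ μ v x y) ∧ (∀ v x y, ¬ (A x y ∧ B v x ∧ C v y) → μ v x y = 0) ∧
      (∀ v x, B v x → ∑ y, μ v x y = 1) ∧ (∀ v y, C v y → ∑ x, μ v x y = 1) ∧
      ∀ v x y, μ v x y ≤ D} := by
  ext μ
  constructor
  · rintro ⟨h, hD⟩
    refine ⟨h.nonneg, ?_, h.row, h.col, hD⟩
    intro v x y hn
    by_contra h0
    exact hn (h.supp v x y h0)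
  · rintro ⟨h1, h2, h3, h4, h5⟩
    refine ⟨⟨h1, ?_, h3, h4⟩, h5⟩
    intro v x y h0
    by_contra hn
    exact h0 (h2 v x y hn)

omit [DecidableEq α] [DecidableEq β] in
theorem KK_closed (A : α → α → Prop) (B C : β → α → Prop) (D : ℝ) : IsClosed (KK A B C D) := by
  rw [KK_eq]
  simp only [Set.setOf_and, Set.setOf_forall]
  refine IsClosed.inter ?_ (IsClosed.inter ?_ (IsClosed.inter ?_ (IsClosed.inter ?_ ?_)))
  · exact isClosed_iInter fun v => isClosed_iInter fun x => isClosed_iInter fun y =>
      isClosed_le (by fun_prop) (by fun_prop)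
  · exact isClosed_iInter fun v => isClosed_iInter fun x => isClosed_iInter fun y =>
      isClosed_iInter fun _ => isClosed_eq (by fun_prop) (by fun_prop)
  · exact isClosed_iInter fun v => isClosed_iInter fun x =>
      isClosed_iInter fun _ => isClosed_eq (by fun_prop) (by fun_prop)
  · exact isClosed_iInter fun v => isClosed_iInter fun y =>
      isClosed_iInter fun _ => isClosed_eq (by fun_prop) (by fun_prop)
  · exact isClosed_iInter fun v => isClosed_iInter fun x => isClosed_iInter fun y =>
      isClosed_le (by fun_prop) (by fun_prop)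

omit [DecidableEq α] [DecidableEq β] in
theorem KK_compact (A : α → α → Prop) (B C : β → α → Prop) (D : ℝ) : IsCompact (KK A B C D) := by
  have hbox : IsCompact (Set.Icc (fun _ _ _ => (0 : ℝ)) (fun _ _ _ => D) :
      Set (β → α → α → ℝ)) := isCompact_Icc
  refine hbox.of_isClosed_subset (KK_closed A B C D) ?_
  rintro μ ⟨h, hD⟩
  exact ⟨fun v x y => h.nonneg v x y, fun v x y => hD v x y⟩

omit [DecidableEq α] [DecidableEq β] in
theorem KK_convex (A : α → α → Prop) (B C : β → α → Prop) (D : ℝ) : Convex ℝ (KK A B C D) := by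
  rw [KK_eq]
  rintro μ ⟨h1, h2, h3, h4, h5⟩ ν ⟨g1, g2, g3, g4, g5⟩ a b ha hb hab
  refine ⟨?_, ?_, ?_, ?_, ?_⟩
  · intro v x y
    simp only [Pi.add_apply, Pi.smul_apply, smul_eq_mul]
    have := h1 v x y
    have := g1 v x y
    positivity
  · intro v x y hn
    simp only [Pi.add_apply, Pi.smul_apply, smul_eq_mul, h2 v x y hn, g2 v x y hn]
    simp
  · intro v x hx
    simp only [Pi.add_apply, Pi.smul_apply, smul_eq_mul, Finset.sum_add_distrib,
      ← Finset.mul_sum, h3 v x hx, g3 v x hx]
    simpa using hab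
  · intro v y hy
    simp only [Pi.add_apply, Pi.smul_apply, smul_eq_mul, Finset.sum_add_distrib,
      ← Finset.mul_sum, h4 v y hy, g4 v y hy]
    simpa using hab
  · intro v x y
    simp only [Pi.add_apply, Pi.smul_apply, smul_eq_mul]
    calc a * μ v x y + b * ν v x y ≤ a * D + b * D :=
          add_le_add (mul_le_mul_of_nonneg_left (h5 v x y) ha)
            (mul_le_mul_of_nonneg_left (g5 v x y) hb)
      _ = D := by rw [← add_mul, hab, one_mul]

omit [DecidableEq α] in
theorem PP_eq (A : α → α → Prop) (E : ℝ) :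
    PP A E = {p | (∀ x y, 0 ≤ p x y) ∧ (∀ x y, ¬ A x y → p x y = 0) ∧
      (∀ x, ∑ y, p x y = 1) ∧ (∀ y, ∑ x, p x y = 1) ∧ ∀ x y, p x y ≤ E} := by
  ext p
  constructor
  · intro h
    refine ⟨h.nonneg, ?_, h.row, h.col, h.le⟩
    intro x y hn
    by_contra h0
    exact hn (h.supp x y h0)
  · rintro ⟨h1, h2, h3, h4, h5⟩
    refine ⟨h1, ?_, h3, h4, h5⟩
    intro x y h0
    by_contra hn
    exact h0 (h2 x y hn)

omit [DecidableEq α] in
theorem PP_compact (A : α → α → Prop) (E : ℝ) : IsCompact (PP A E) := by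
  have hbox : IsCompact (Set.Icc (fun _ _ => (0 : ℝ)) (fun _ _ => E) :
      Set (α → α → ℝ)) := isCompact_Icc
  refine hbox.of_isClosed_subset ?_ ?_
  · rw [PP_eq]
    simp only [Set.setOf_and, Set.setOf_forall]
    refine IsClosed.inter ?_ (IsClosed.inter ?_ (IsClosed.inter ?_ (IsClosed.inter ?_ ?_)))
    · exact isClosed_iInter fun x => isClosed_iInter fun y =>
        isClosed_le (by fun_prop) (by fun_prop)
    · exact isClosed_iInter fun x => isClosed_iInter fun y =>
        isClosed_iInter fun _ => isClosed_eq (by fun_prop) (by fun_prop)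
    · exact isClosed_iInter fun x => isClosed_eq (by fun_prop) (by fun_prop)
    · exact isClosed_iInter fun y => isClosed_eq (by fun_prop) (by fun_prop)
    · exact isClosed_iInter fun x => isClosed_iInter fun y =>
        isClosed_le (by fun_prop) (by fun_prop)
  · intro p h
    exact ⟨fun x y => h.nonneg x y, fun x y => h.le x y⟩

open Classical in
/-- the indicator matrix of `A` -/
noncomputable def JJ (A : α → α → Prop) : α → α → ℝ := fun x y => if A x y then 1 else 0

omit [DecidableEq α] in
theorem sum_ind {γ : Type} [Fintype γ] (p : γ → Prop) (g : γ → ℝ) (h1 : ∀ x, p x → g x = 1)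
    (h0 : ∀ x, ¬ p x → g x = 0) : ∑ x, g x + mis p = Fintype.card γ := by
  classical
  have h : ∀ x, g x = 1 - (if ¬ p x then (1 : ℝ) else 0) := by
    intro x
    by_cases hx : p x
    · rw [h1 x hx]; simp [hx]
    · rw [h0 x hx]; simp [hx]
  have e : ∑ x, g x = Fintype.card γ - mis p := by
    rw [Finset.sum_congr rfl fun x _ => h x, Finset.sum_sub_distrib]
    congr 1
    · simp
    · rw [Finset.sum_ite]
      simp only [Finset.sum_const_zero, add_zero, Finset.sum_const, nsmul_eq_mul, mul_one]
      unfold mis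
      norm_cast
  rw [e]; ring

omit [DecidableEq α] [DecidableEq β] in
theorem row0 {k : ℕ} {A : α → α → Prop} {B C : β → α → Prop} (H : Hyp3 k A B C)
    {μ : β → α → α → ℝ} (hμ : IsFam A B C μ) (x : α) :
    ∑ y, (JJ A x y - Lam α β μ x y) = 0 := by
  have h1 := sum_ind (A x) (fun y => JJ A x y) (fun y hy => by simp [JJ, hy])
    (fun y hy => by simp [JJ, hy])
  have h2 := sum_ind (fun v => B v x) (fun v => ∑ y, μ v x y) (fun v hv => hμ.row v x hv)
    (fun v hv => by
      refine Finset.sum_eq_zero fun y _ => ?_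
      by_contra h0
      exact hv (hμ.supp v x y h0).2.1)
  have h3 : ∑ y, Lam α β μ x y = ∑ v, ∑ y, μ v x y := by
    simp only [Lam_apply]
    exact Finset.sum_comm
  rw [Finset.sum_sub_distrib, h3]
  have hb := H.b2 x
  have hc := H.card
  rw [hb, hc] at h2
  linarith

omit [DecidableEq α] [DecidableEq β] in
theorem col0 {k : ℕ} {A : α → α → Prop} {B C : β → α → Prop} (H : Hyp3 k A B C)
    {μ : β → α → α → ℝ} (hμ : IsFam A B C μ) (y : α) :
    ∑ x, (JJ A x y - Lam α β μ x y) = 0 := by
  have h1 := sum_ind (fun x => A x y) (fun x => JJ A x y) (fun x hx => by simp [JJ, hx])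
    (fun x hx => by simp [JJ, hx])
  have h2 := sum_ind (fun v => C v y) (fun v => ∑ x, μ v x y) (fun v hv => hμ.col v y hv)
    (fun v hv => by
      refine Finset.sum_eq_zero fun x _ => ?_
      by_contra h0
      exact hv (hμ.supp v x y h0).2.2)
  have h3 : ∑ x, Lam α β μ x y = ∑ v, ∑ x, μ v x y := by
    simp only [Lam_apply]
    exact Finset.sum_comm
  rw [Finset.sum_sub_distrib, h3]
  have hb := H.c2 y
  have hc := H.card
  rw [hb, hc] at h2
  linarith

omit [DecidableEq α] in
/-- small perturbations stay in the box -/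
theorem small {E : ℝ} (p g : α → α → ℝ) (h0 : ∀ x y, 0 ≤ p x y)
    (hE : ∀ x y, p x y ≤ E) (hg0 : ∀ x y, p x y = 0 → 0 ≤ g x y)
    (hgE : ∀ x y, p x y = E → g x y ≤ 0) :
    ∃ ε : ℝ, 0 < ε ∧ ∀ x y, 0 ≤ p x y + ε * g x y ∧ p x y + ε * g x y ≤ E := by
  have key : ∀ᶠ ε : ℝ in 𝓝[>] 0, ∀ x y, 0 ≤ p x y + ε * g x y ∧ p x y + ε * g x y ≤ E := by
    rw [Filter.eventually_all]
    intro x
    rw [Filter.eventually_all]
    intro y
    have hcont : Filter.Tendsto (fun ε : ℝ => p x y + ε * g x y) (𝓝[>] 0) (𝓝 (p x y)) := by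
      have : Filter.Tendsto (fun ε : ℝ => p x y + ε * g x y) (𝓝 0) (𝓝 (p x y + 0 * g x y)) :=
        (Continuous.tendsto (by fun_prop) 0)
      rw [zero_mul, add_zero] at this
      exact this.mono_left nhdsWithin_le_nhds
    have hpos : ∀ᶠ ε : ℝ in 𝓝[>] 0, 0 < ε := self_mem_nhdsWithin
    refine Filter.Eventually.and ?_ ?_
    · rcases (h0 x y).eq_or_lt with h | h
      · filter_upwards [hpos] with ε hε
        rw [← h, zero_add]
        exact mul_nonneg hε.le (hg0 x y h.symm)
      · filter_upwards [hcont.eventually (lt_mem_nhds h)] with ε hε using hε.le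
    · rcases (hE x y).eq_or_lt with h | h
      · filter_upwards [hpos] with ε hε
        have := mul_nonpos_of_nonneg_of_nonpos hε.le (hgE x y h)
        rw [h]; linarith
      · filter_upwards [hcont.eventually (gt_mem_nhds h)] with ε hε using hε.le
  have hpos : ∀ᶠ ε : ℝ in 𝓝[>] 0, 0 < ε := self_mem_nhdsWithin
  obtain ⟨ε, h1, h2⟩ := (hpos.and key).exists
  exact ⟨ε, h1, h2⟩

end Q5aux

open Q5aux in
theorem p_Q5 : S_Q5 := by
  intro α β _ _ _ _ k A B C D E hE H hne hyp
  by_cases hJ : JJ A ∈ Lam α β '' KK A B C D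
  · obtain ⟨μ, ⟨hμ, hD⟩, hJ⟩ := hJ
    refine ⟨μ, hμ, hD, fun x y hxy => ?_⟩
    have := congrFun (congrFun hJ x) y
    rw [Lam_apply] at this
    rw [this]
    simp [JJ, hxy]
  · exfalso
    have hcomp : IsCompact (Lam α β '' KK A B C D) := (KK_compact A B C D).image Lam_cont
    have hconv : Convex ℝ (Lam α β '' KK A B C D) := (KK_convex A B C D).linear_image _
    obtain ⟨f, u, hu1, hu2⟩ := geometric_hahn_banach_point_closed hconv hcomp.isClosed hJ
    obtain ⟨p, hp, hmin⟩ := (PP_compact A E).exists_isMinOn hne f.continuous.continuousOn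
    have hp' : DSq A E p := hp
    obtain ⟨μ, hμ, hD, hl0, hlE⟩ := hyp p hp'
    have hΛ : Lam α β μ ∈ Lam α β '' KK A B C D := ⟨μ, ⟨hμ, hD⟩, rfl⟩
    have hu := hu2 _ hΛ
    obtain ⟨ε, hε, hb⟩ := small (E := E) p (fun x y => JJ A x y - Lam α β μ x y) hp'.nonneg hp'.le
      (by
        intro x y h0
        by_cases hxy : A x y
        · have := hl0 x y h0
          rw [← Lam_apply] at this
          simp only [JJ, if_pos hxy]
          linarith
        · have : Lam α β μ x y = 0 := by
            rw [Lam_apply]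
            refine Finset.sum_eq_zero fun v _ => ?_
            by_contra h
            exact hxy (hμ.supp v x y h).1
          simp [JJ, hxy, this])
      (by
        intro x y h1
        have hxy : A x y := hp'.supp x y (by rw [h1]; exact hE.ne')
        have := hlE x y h1
        rw [← Lam_apply] at this
        simp only [JJ, if_pos hxy]
        linarith)
    have hq : DSq A E (p + ε • (JJ A - Lam α β μ)) := by
      refine ⟨?_, ?_, ?_, ?_, ?_⟩
      · intro x y
        exact (hb x y).1
      · intro x y h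
        by_contra hxy
        apply h
        have h1 : p x y = 0 := by
          by_contra h0
          exact hxy (hp'.supp x y h0)
        have h2 : Lam α β μ x y = 0 := by
          rw [Lam_apply]
          refine Finset.sum_eq_zero fun v _ => ?_
          by_contra h
          exact hxy (hμ.supp v x y h).1
        simp [JJ, hxy, h1, h2]
      · intro x
        have := row0 H hμ x
        simp only [Pi.add_apply, Pi.smul_apply, Pi.sub_apply, smul_eq_mul,
          Finset.sum_add_distrib, ← Finset.mul_sum, this, hp'.row x]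
        simp
      · intro y
        have := col0 H hμ y
        simp only [Pi.add_apply, Pi.smul_apply, Pi.sub_apply, smul_eq_mul,
          Finset.sum_add_distrib, ← Finset.mul_sum, this, hp'.col y]
        simp
      · intro x y
        exact (hb x y).2
    have h1 : f p ≤ f (p + ε • (JJ A - Lam α β μ)) := hmin hq
    rw [map_add, map_smul, map_sub, smul_eq_mul] at h1
    have h2 : 0 ≤ ε * (f (JJ A) - f (Lam α β μ)) := by linarith
    have h3 : 0 ≤ f (JJ A) - f (Lam α β μ) := nonneg_of_mul_nonneg_right h2 hε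
    linarith

end DH
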