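import Pool.Agent.Lib.MP_fe8cb7_co.h30.StQ

/-!
# Daykin-Haggkvist problem: assembly of the fractional theorem for missing degrees at most `N / 5`
-/

set_option autoImplicit false

open Finset

namespace DH

private theorem Q6_hyp {α β : Type} [Fintype α] [Fintype β] {k l : ℕ} {A : α → α → Prop}
    {B C : β → α → Prop} (h : Hyp3 k A B C) (hkl : k ≤ l) : Hyp3 l A B C where
  card := h.card
  a1 x := (h.a1 x).trans hkl
  a2 y := (h.a2 y).trans hkl
  b1 v := (h.b1 v).trans hkl
  b2 := h.b2
  c1 := h.c1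
  c2 := h.c2

/-- [Q6] assembly -/
theorem p_Q6 : S_Q6 := by
  intro h1 h2 h3 h4 h5
  refine ⟨20, ?_⟩
  intro α β _ _ _ _ k A B C hN hk hyp
  have hkN : 5 * k ≤ Fintype.card α := by
    have : (5 * k : ℝ) ≤ Fintype.card α := by linarith
    exact_mod_cast this
  have hkl : k ≤ Fintype.card α / 5 := by omega
  have hyp' : Hyp3 (Fintype.card α / 5) A B C := Q6_hyp hyp hkl
  have hl1 : 1 ≤ Fintype.card α / 5 := by omega
  have hl5 : 5 * (Fintype.card α / 5) ≤ Fintype.card α := by omega
  have hl10 : Fintype.card α ≤ 10 * (Fintype.card α / 5) := by omega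
  have hpos : (0 : ℝ) < Fintype.card α := by
    have : 0 < Fintype.card α := by omega
    exact_mod_cast this
  refine h5 α β (Fintype.card α / 5) A B C (20 / Fintype.card α) (4 / Fintype.card α)
    (by positivity) hyp' (h3 α (Fintype.card α / 5) A hN hl5 hyp'.a1 hyp'.a2) ?_
  intro p hp
  exact h4 h1 h2 α β (Fintype.card α / 5) A B C p hl1 hl5 hl10 hyp' hp

end DH
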