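import Pool.Agent.Lib.MP_fe8cb7_co.h30.StQ
import Pool.Agent.Lib.MP_fe8cb7_co.h25.Basic

open Finset

namespace DH

private theorem q7_param {V : Type} [Fintype V] [DecidableEq V] {π : V → ZMod 3} {N : ℕ}
    (h : Eq3 π univ N) : ∃ e : ZMod 3 → Fin N → V, (∀ i, Function.Injective (e i)) ∧
      (∀ i k, π (e i k) = i) ∧ ∀ v, ∃ k, e (π v) k = v := by
  refine ⟨fun i k => (((pt π univ i).equivFinOfCardEq (h i)).symm k).1, ?_, ?_, ?_⟩
  · intro i k k' hk
    exact ((pt π univ i).equivFinOfCardEq (h i)).symm.injective (Subtype.ext hk)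
  · intro i k
    have := (((pt π univ i).equivFinOfCardEq (h i)).symm k).2
    exact (mem_pt.1 this).2
  · intro v
    have hv : v ∈ pt π univ (π v) := mem_pt.2 ⟨mem_univ _, rfl⟩
    refine ⟨(pt π univ (π v)).equivFinOfCardEq (h (π v)) ⟨v, hv⟩, ?_⟩
    simp only
    rw [Equiv.symm_apply_apply]

private theorem q7_mis {V : Type} [Fintype V] [DecidableEq V] {π : V → ZMod 3} {N : ℕ}
    {e : ZMod 3 → Fin N → V} (hinj : ∀ i, Function.Injective (e i)) (hpi : ∀ i k, π (e i k) = i)
    (hsur : ∀ v, ∃ k, e (π v) k = v) (G : SimpleGraph V) (u : V) (i : ZMod 3) :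
    mis (fun k => G.Adj u (e i k)) + dg G u (pt π univ i) = N := by
  classical
  have h1 : nb G u (pt π univ i) = (univ.filter (fun k => G.Adj u (e i k))).image (e i) := by
    ext v
    rw [mem_nb, mem_pt, mem_image]
    constructor
    · rintro ⟨⟨-, h2⟩, h3⟩
      obtain ⟨k, hk⟩ := hsur v
      rw [h2] at hk
      exact ⟨k, mem_filter.2 ⟨mem_univ _, by rw [hk]; exact h3⟩, hk⟩
    · rintro ⟨k, hk, rfl⟩
      exact ⟨⟨mem_univ _, hpi i k⟩, (mem_filter.1 hk).2⟩
  have h2 : dg G u (pt π univ i) = (univ.filter (fun k => G.Adj u (e i k))).card := by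
    unfold dg
    rw [h1, card_image_of_injective _ (hinj i)]
  have h3 : mis (fun k => G.Adj u (e i k)) = (univ.filter (fun k => ¬ G.Adj u (e i k))).card := by
    unfold mis
    congr 1
  rw [h2, h3, add_comm, card_filter_add_card_filter_not, card_univ, Fintype.card_fin]

private theorem q7_cn {V : Type} [Fintype V] [DecidableEq V] {π : V → ZMod 3} {N : ℕ}
    {e : ZMod 3 → Fin N → V} (hinj : ∀ i, Function.Injective (e i)) (_hpi : ∀ i k, π (e i k) = i)
    (hsur : ∀ v, ∃ k, e (π v) k = v) {G : SimpleGraph V} (hT : Tri π G) {x y : V} {a : ZMod 3}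
    (h : ∀ b : ZMod 3, b ≠ π x → b ≠ π y → b = a) (W : Finset V → ℝ) (f : Fin N → ℝ)
    (hf : ∀ k, f k ≠ 0 → G.Adj x (e a k) ∧ G.Adj y (e a k))
    (hW : ∀ k, W {x, y, e a k} = f k) : ∑ z ∈ cn G x y, W {x, y, z} = ∑ k, f k := by
  classical
  have h1 : cn G x y = (univ.filter (fun k => G.Adj x (e a k) ∧ G.Adj y (e a k))).image (e a) := by
    ext z
    unfold cn
    rw [mem_inter, mem_nb, mem_nb, mem_image]
    constructor
    · rintro ⟨⟨-, h2⟩, ⟨-, h3⟩⟩
      obtain ⟨k, hk⟩ := hsur z
      rw [h (π z) (fun h4 => hT _ _ h2 h4.symm) (fun h4 => hT _ _ h3 h4.symm)] at hk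
      exact ⟨k, mem_filter.2 ⟨mem_univ _, by rw [hk]; exact ⟨h2, h3⟩⟩, hk⟩
    · rintro ⟨k, hk, rfl⟩
      have := (mem_filter.1 hk).2
      exact ⟨⟨mem_univ _, this.1⟩, ⟨mem_univ _, this.2⟩⟩
  rw [h1, sum_image (fun k _ k' _ hk => hinj a hk), sum_filter]
  refine sum_congr rfl fun k _ => ?_
  rw [hW]
  split_ifs with h2
  · rfl
  · by_contra h3
    exact h2 (hf k (fun h4 => h3 h4.symm))

theorem p_Q7 : S_Q7 := by
  classical
  intro c C0 hC0 ⟨N0, hA⟩
  refine ⟨max N0 1, ?_⟩
  intro V _ _ π G N hN h3 hT hbal hdeg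
  obtain ⟨e, hinj, hpi, hsur⟩ := q7_param h3
  have hN0 : N0 ≤ N := (le_max_left _ _).trans hN
  have hN1 : 1 ≤ N := (le_max_right _ _).trans hN
  have hmis := fun u i => q7_mis hinj hpi hsur G u i
  have hb : ∀ v, dg G v (pt π univ (π v + 1)) = dg G v (pt π univ (π v - 1)) := by
    intro v
    have := hbal v
    unfold imb at this
    omega
  -- bounds for the missing degrees
  have hcN : ∀ u i, i ≠ π u → (mis (fun k => G.Adj u (e i k)) : ℝ) ≤ c * N := by
    intro u i hi
    have h1 := hmis u i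
    have h2 := hdeg u i hi
    have h4 : (mis (fun k => G.Adj u (e i k)) : ℝ) + dg G u (pt π univ i) = N := by
      exact_mod_cast h1
    linarith
  have hk : ∀ u i, i ≠ π u → mis (fun k => G.Adj u (e i k)) ≤ ⌊c * N⌋₊ := fun u i hi =>
    Nat.le_floor (hcN u i hi)
  have hpos : 0 ≤ c * N := by
    have h1 := hcN (e 0 ⟨0, hN1⟩) 1 (by rw [hpi]; decide)
    exact (Nat.cast_nonneg _).trans h1
  have hsym : ∀ u i, mis (fun k => G.Adj (e i k) u) = mis (fun k => G.Adj u (e i k)) := by
    intro u i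
    congr 1
    funext k
    rw [G.adj_comm]
  have hH : Hyp3 ⌊c * N⌋₊ (fun i j => G.Adj (e 0 i) (e 1 j)) (fun v i => G.Adj (e 2 v) (e 0 i))
      (fun v j => G.Adj (e 2 v) (e 1 j)) := by
    refine { card := rfl, a1 := ?_, a2 := ?_, b1 := ?_, b2 := ?_, c1 := ?_, c2 := ?_ }
    · intro x
      exact hk (e 0 x) 1 (by rw [hpi]; decide)
    · intro y
      rw [hsym (e 1 y) 0]
      exact hk (e 1 y) 0 (by rw [hpi]; decide)
    · intro v
      exact hk (e 2 v) 0 (by rw [hpi]; decide)
    · intro x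
      rw [hsym (e 0 x) 2]
      have h1 := hmis (e 0 x) 2
      have h2 := hmis (e 0 x) 1
      have h4 := hb (e 0 x)
      rw [hpi] at h4
      have e1 : (0 : ZMod 3) + 1 = 1 := by decide
      have e2 : (0 : ZMod 3) - 1 = 2 := by decide
      rw [e1, e2] at h4
      show _ = mis (fun k => G.Adj (e 0 x) (e 1 k))
      omega
    · intro v
      have h1 := hmis (e 2 v) 0
      have h2 := hmis (e 2 v) 1
      have h4 := hb (e 2 v)
      rw [hpi] at h4
      have e1 : (2 : ZMod 3) + 1 = 0 := by decide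
      have e2 : (2 : ZMod 3) - 1 = 1 := by decide
      rw [e1, e2] at h4
      show mis (fun k => G.Adj (e 2 v) (e 1 k)) = mis (fun k => G.Adj (e 2 v) (e 0 k))
      omega
    · intro y
      rw [hsym (e 1 y) 2, hsym (e 1 y) 0]
      have h1 := hmis (e 1 y) 2
      have h2 := hmis (e 1 y) 0
      have h4 := hb (e 1 y)
      rw [hpi] at h4
      have e1 : (1 : ZMod 3) + 1 = 2 := by decide
      have e2 : (1 : ZMod 3) - 1 = 0 := by decide
      rw [e1, e2] at h4
      omega
  obtain ⟨μ, hμ, hμle, hμ1⟩ := hA (Fin N) (Fin N) ⌊c * N⌋₊ _ _ _ (by rwa [Fintype.card_fin])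
    (by rw [Fintype.card_fin]; exact Nat.floor_le hpos) hH
  rw [Fintype.card_fin] at hμle
  -- uniqueness of the triple
  have huniq : ∀ i j v i' j' v', ({e 0 i, e 1 j, e 2 v} : Finset V) = {e 0 i', e 1 j', e 2 v'} →
      i = i' ∧ j = j' ∧ v = v' := by
    intro i j v i' j' v' h
    have hne : ∀ (a b : ZMod 3) (s t : Fin N), a ≠ b → e a s ≠ e b t := by
      intro a b s t hab h1
      apply hab
      rw [← hpi a s, h1, hpi]
    refine ⟨?_, ?_, ?_⟩
    · have h1 : e 0 i ∈ ({e 0 i', e 1 j', e 2 v'} : Finset V) := by rw [← h]; simp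
      simp only [mem_insert, mem_singleton] at h1
      rcases h1 with h1 | h1 | h1
      · exact hinj 0 h1
      · exact absurd h1 (hne _ _ _ _ (by decide))
      · exact absurd h1 (hne _ _ _ _ (by decide))
    · have h1 : e 1 j ∈ ({e 0 i', e 1 j', e 2 v'} : Finset V) := by rw [← h]; simp
      simp only [mem_insert, mem_singleton] at h1
      rcases h1 with h1 | h1 | h1
      · exact absurd h1 (hne _ _ _ _ (by decide))
      · exact hinj 1 h1
      · exact absurd h1 (hne _ _ _ _ (by decide))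
    · have h1 : e 2 v ∈ ({e 0 i', e 1 j', e 2 v'} : Finset V) := by rw [← h]; simp
      simp only [mem_insert, mem_singleton] at h1
      rcases h1 with h1 | h1 | h1
      · exact absurd h1 (hne _ _ _ _ (by decide))
      · exact absurd h1 (hne _ _ _ _ (by decide))
      · exact hinj 2 h1
  set W : Finset V → ℝ := fun t => ∑ v, ∑ i, ∑ j,
    if t = {e 0 i, e 1 j, e 2 v} then μ v i j else 0 with hWdef
  have hW : ∀ i j v, W {e 0 i, e 1 j, e 2 v} = μ v i j := by
    intro i j v
    simp only [hWdef]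
    rw [sum_eq_single v, sum_eq_single i, sum_eq_single j, if_pos rfl]
    · intro j' _ hj
      exact if_neg fun h => hj (huniq _ _ _ _ _ _ h).2.1.symm
    · intro h; exact absurd (mem_univ _) h
    · intro i' _ hi
      exact sum_eq_zero fun j' _ => if_neg fun h => hi (huniq _ _ _ _ _ _ h).1.symm
    · intro h; exact absurd (mem_univ _) h
    · intro v' _ hv
      exact sum_eq_zero fun i' _ => sum_eq_zero fun j' _ =>
        if_neg fun h => hv (huniq _ _ _ _ _ _ h).2.2.symm
    · intro h; exact absurd (mem_univ _) h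
  refine ⟨W, ?_, ?_, ?_⟩
  · intro t
    simp only [hWdef]
    refine sum_nonneg fun v _ => sum_nonneg fun i _ => sum_nonneg fun j _ => ?_
    split_ifs
    · exact hμ.nonneg v i j
    · exact le_rfl
  · intro t
    by_cases ht : ∃ i j v, t = {e 0 i, e 1 j, e 2 v}
    · obtain ⟨i, j, v, rfl⟩ := ht
      rw [hW]
      exact hμle v i j
    · push Not at ht
      have h0 : W t = 0 := by
        simp only [hWdef]
        exact sum_eq_zero fun v _ => sum_eq_zero fun i _ => sum_eq_zero fun j _ =>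
          if_neg (ht i j v)
      rw [h0]
      positivity
  · -- the edges
    have key01 : ∀ i j, G.Adj (e 0 i) (e 1 j) →
        ∑ z ∈ cn G (e 0 i) (e 1 j), W {e 0 i, e 1 j, z} = 1 := by
      intro i j hij
      rw [q7_cn hinj hpi hsur hT (a := 2) (by
        intro b; rw [hpi, hpi]; revert b; decide) W (fun v => μ v i j) ?_ (fun k => hW i j k)]
      · exact hμ1 i j hij
      · intro v hv
        have := hμ.supp v i j hv
        exact ⟨this.2.1.symm, this.2.2.symm⟩
    have key20 : ∀ v i, G.Adj (e 2 v) (e 0 i) →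
        ∑ z ∈ cn G (e 2 v) (e 0 i), W {e 2 v, e 0 i, z} = 1 := by
      intro v i hvi
      rw [q7_cn hinj hpi hsur hT (a := 1) (by
        intro b; rw [hpi, hpi]; revert b; decide) W (fun j => μ v i j) ?_ ?_]
      · exact hμ.row v i hvi
      · intro j hj
        have := hμ.supp v i j hj
        exact ⟨this.2.2, this.1⟩
      · intro j
        rw [← hW i j v]
        congr 1
        ext z
        simp only [mem_insert, mem_singleton]
        tauto
    have key21 : ∀ v j, G.Adj (e 2 v) (e 1 j) →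
        ∑ z ∈ cn G (e 2 v) (e 1 j), W {e 2 v, e 1 j, z} = 1 := by
      intro v j hvj
      rw [q7_cn hinj hpi hsur hT (a := 0) (by
        intro b; rw [hpi, hpi]; revert b; decide) W (fun i => μ v i j) ?_ ?_]
      · exact hμ.col v j hvj
      · intro i hi
        have := hμ.supp v i j hi
        exact ⟨this.2.1, this.1.symm⟩
      · intro i
        rw [← hW i j v]
        congr 1
        ext z
        simp only [mem_insert, mem_singleton]
        tauto
    have hswap : ∀ x y, ∑ z ∈ cn G x y, W {x, y, z} = ∑ z ∈ cn G y x, W {y, x, z} := by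
      intro x y
      have h1 : cn G x y = cn G y x := by
        unfold cn
        exact inter_comm _ _
      rw [h1]
      refine sum_congr rfl fun z _ => ?_
      congr 1
      ext z
      simp only [mem_insert, mem_singleton]
      tauto
    intro x y hxy
    have hxy' := hT x y hxy
    obtain ⟨s, hs⟩ := hsur x
    obtain ⟨t, ht⟩ := hsur y
    have h012 : ∀ a : ZMod 3, a = 0 ∨ a = 1 ∨ a = 2 := by decide
    rw [← hs, ← ht] at hxy ⊢
    rcases h012 (π x) with hx | hx | hx <;> rcases h012 (π y) with hy | hy | hy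
    · exact absurd (hx.trans hy.symm) hxy'
    · rw [hx, hy] at hxy ⊢
      exact key01 s t hxy
    · rw [hx, hy] at hxy ⊢
      rw [hswap]
      exact key20 t s hxy.symm
    · rw [hx, hy] at hxy ⊢
      rw [hswap]
      exact key01 t s hxy.symm
    · exact absurd (hx.trans hy.symm) hxy'
    · rw [hx, hy] at hxy ⊢
      rw [hswap]
      exact key21 t s hxy.symm
    · rw [hx, hy] at hxy ⊢
      exact key20 s t hxy
    · rw [hx, hy] at hxy ⊢
      exact key21 s t hxy
    · exact absurd (hx.trans hy.symm) hxy'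

end DH
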