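import Pool.Agent.Lib.MP_fe8cb7_co.h77.StZ

/-!
# Daykin-Haggkvist problem: the fractional theorem for missing degrees at most `N / 5`

Owner helper30. Every docstring contains a complete informal proof.

Abstract form: the three parts are `α`, `α`, `β`; `A x y` = the edge between `x` in the first and `y` in the second part,
`B v x`, `C v y` = the edges between `v` in the third part and `x`, `y`. A fractional triangle decomposition is a family
`μ v x y` (weight of the triangle `v x y`).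
-/

open Finset

namespace DH

section qdefs

open Classical in
/-- number of missing elements of a predicate -/
noncomputable def mis {α : Type} [Fintype α] (p : α → Prop) : ℕ := (univ.filter (fun x => ¬ p x)).card

/-- flow matrix for one vertex (of the third part), the matching is the diagonal -/
structure Flw {α : Type} [Fintype α] (k : ℕ) (A : α → α → Prop) (B C : α → Prop)
    (φ : α → α → ℝ) : Prop where
  nonneg : ∀ P Q, 0 ≤ φ P Q
  supp : ∀ P Q, φ P Q ≠ 0 → A P Q ∧ B P ∧ C Q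
  row : ∀ P, B P → ∑ Q, φ P Q = 1
  col : ∀ Q, C Q → ∑ P, φ P Q = 1
  off : ∀ P Q, P ≠ Q → φ P Q ≤ 1 / (2 * k)
  off0 : ∀ P Q, P ≠ Q → φ P Q ≠ 0 → ¬ C P ∨ ¬ B Q
  diag : ∀ P, B P → C P → 1 / 2 ≤ φ P P

/-- families of fractional perfect matchings of all links -/
structure IsFam {α β : Type} [Fintype α] (A : α → α → Prop) (B C : β → α → Prop)
    (μ : β → α → α → ℝ) : Prop where
  nonneg : ∀ v x y, 0 ≤ μ v x y
  supp : ∀ v x y, μ v x y ≠ 0 → A x y ∧ B v x ∧ C v y
  row : ∀ v x, B v x → ∑ y, μ v x y = 1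
  col : ∀ v y, C v y → ∑ x, μ v x y = 1

/-- missing degrees at most `k` everywhere, and the number of missing neighbours is the same in
the two other parts -/
structure Hyp3 {α β : Type} [Fintype α] [Fintype β] (k : ℕ) (A : α → α → Prop)
    (B C : β → α → Prop) : Prop where
  card : Fintype.card β = Fintype.card α
  a1 : ∀ x, mis (A x) ≤ k
  a2 : ∀ y, mis (fun x => A x y) ≤ k
  b1 : ∀ v, mis (B v) ≤ k
  b2 : ∀ x, mis (fun v => B v x) = mis (A x)
  c1 : ∀ v, mis (C v) = mis (B v)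
  c2 : ∀ y, mis (fun v => C v y) = mis (fun x => A x y)

/-- doubly stochastic matrices supported on `A` with entries at most `c` -/
structure DSq {α : Type} [Fintype α] (A : α → α → Prop) (c : ℝ) (p : α → α → ℝ) : Prop where
  nonneg : ∀ x y, 0 ≤ p x y
  supp : ∀ x y, p x y ≠ 0 → A x y
  row : ∀ x, ∑ y, p x y = 1
  col : ∀ y, ∑ x, p x y = 1
  le : ∀ x y, p x y ≤ c

end qdefs

/-- [Q1] the flow for one vertex.
PROOF. `κ = 1/(2k)`, `N = card α`. `X1` = the `P` with `B P`, `¬ C P`; `X2` = the `Q` with `C Q`, `¬ B Q`; `Y` = the `S` with `B S`, `C S`. As `mis B = mis C`,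
`|X1| = |X2| = ρ ≤ k` (both are `mis B` minus the number of elements with `¬ B`, `¬ C`), and `|Y| ≥ N - mis B - ρ`
(the complement of `Y` is the disjoint union of `X1` and `{¬ B}`). For `P ∈ X1` let `d P = κ #{Q ∈ X2 | A P Q}`, `r P = 1 - d P`; for `Q ∈ X2`
let `d' Q = κ #{P ∈ X1 | A P Q}`, `r' Q = 1 - d' Q`; as `κ ρ ≤ 1/2` these are `≥ 1/2`, and `R := ∑_{X1} r = ∑_{X2} r'` (double counting). For `P ∈ X1`, `Q ∈ X2`
let `e P Q = r P * r' Q / R` (so `∑_Q e P Q = r P`, `∑_P e P Q = r' Q` if `X1` is not empty) and `T P Q = {S ∈ Y | A P S ∧ A S Q}`, `n P Q` its cardinality. Then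
`n P Q ≥ |Y| - #{S ∈ Y | ¬ A P S} - #{S ∈ Y | ¬ A S Q}` and `r P = 1 - κ (ρ - #{Q' ∈ X2 | ¬ A P Q'})`, so `κ n P Q ≥ r P` follows from
`N - mis B - (#{S ∈ Y | ¬ A P S} + #{Q' ∈ X2 | ¬ A P Q'}) - #{S ∈ Y | ¬ A S Q} ≥ 2k`, and the left side is `≥ N - 3k ≥ 2k` (`X2`, `Y` are disjoint). In the same way
`κ n P Q ≥ r' Q`. Define `φ P Q = κ` if `P ∈ X1`, `Q ∈ X2`, `A P Q`;
`φ P S = ∑_{Q ∈ X2} e P Q / n P Q * [S ∈ T P Q]` for `P ∈ X1`, `S ∈ Y`; `φ S Q = ∑_{P ∈ X1} e P Q / n P Q * [S ∈ T P Q]` for `S ∈ Y`, `Q ∈ X2`;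
`φ S S = 1 - τ S`, `τ S = ∑_{P ∈ X1, Q ∈ X2} e P Q / n P Q * [S ∈ T P Q]` for `S ∈ Y`; all other entries are `0`. Rows: for `P ∈ X1`: `d P + ∑_Q e P Q = 1`
(`∑_{S} [S ∈ T P Q] = n P Q > 0`); for `S ∈ Y`: `τ S + (1 - τ S) = 1`. Columns in the same way. Bounds: `e P Q / n P Q ≤ κ r' Q / R` (as `1 / n ≤ κ / r P`), sum over `Q`: `φ P S ≤ κ`;
in the same way `φ S Q ≤ κ`; `τ S = ∑_{P ∈ X1} φ P S ≤ κ ρ ≤ 1/2`. (If `X1` is empty then `X2` is empty and `φ` is the identity on `Y`.) -/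
def S_Q1 : Prop := ∀ (α : Type) [Fintype α] [DecidableEq α] (k : ℕ) (A : α → α → Prop)
    (B C : α → Prop), 1 ≤ k → 5 * k ≤ Fintype.card α → (∀ P, A P P) → (∀ P, mis (A P) ≤ k) →
    (∀ Q, mis (fun P => A P Q) ≤ k) → mis C = mis B → mis B ≤ k → ∃ φ, Flw k A B C φ

/-- [Q2] the family for a perfect matching `σ` of `A`.
PROOF. For every `v` apply [Q1] to `A' P Q = A P (σ Q)`, `B v`, `C' P = C v (σ P)` (`mis` does not change under the bijection `σ`), choose `φ v` and put
`μ v x y = φ v x (σ⁻¹ y)`. Load off the matching: for `y ≠ σ x` and `Q = σ⁻¹ y ≠ x` the number `φ v x Q` is at most `1/(2k)`, and not `0` only if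
`¬ C v (σ x)` or `¬ B v Q`, this happens for at most `k + k` elements `v` (`mis (fun v => C v (σ x)) ≤ k`, `mis (fun v => B v Q) ≤ k` by `Hyp3`). Load on the matching: `μ v x (σ x) = φ v x x ≥ 1/2` for all
`v` with `B v x`, `C v (σ x)`, at least `card β - 2 k` elements. Last: `φ v x x ≤ 1` (row sum `1`, or `φ v x x = 0` if `¬ B v x`). -/
def S_Q2 : Prop := S_Q1 → ∀ (α β : Type) [Fintype α] [DecidableEq α] [Fintype β] [DecidableEq β]
    (k : ℕ) (A : α → α → Prop) (B C : β → α → Prop) (σ : Equiv.Perm α), 1 ≤ k →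
    5 * k ≤ Fintype.card α → Hyp3 k A B C → (∀ x, A x (σ x)) →
    ∃ μ, IsFam A B C μ ∧ (∀ x y, y ≠ σ x → ∑ v, μ v x y ≤ 1) ∧
      (∀ x, ((Fintype.card α : ℝ) - 2 * k) / 2 ≤ ∑ v, μ v x (σ x)) ∧
      ∀ v x y, μ v x y ≤ (if y = σ x then 1 else 0) + 1 / (2 * k)

/-- [Q3] a doubly stochastic matrix on `A` with small entries.
PROOF. `N = card α`, `t = ⌈N/4⌉` (for example `(N + 3) / 4`). By induction on `s ≤ t` there are `s` permutations `σ_i` with `A x (σ_i x)` and `σ_i x ≠ σ_j x` for `i ≠ j`: step: the relation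
`A' x y`: `A x y` and `σ_i x ≠ y` for all `i < s` has at most `k + s` missing elements in each row and column; Hall (`Finset.all_card_le_biUnion_card_iff_exists_injective`):
a set `S` of rows with `|S| ≤ N - k - s` has at least `N - k - s` neighbours (if not empty), and if `|S| > N - k - s ≥ k + s` every column has a neighbour
in `S`; `2 (k + s) ≤ N` as `2k ≤ 2N/5`, `2 s ≤ 2 (t-1) ≤ N/2`. An injective map `α → α` is a permutation. Then `p x y = (1/t) #{i | σ_i x = y}`: entries `≤ 1/t ≤ 4/N`. -/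
def S_Q3 : Prop := ∀ (α : Type) [Fintype α] [DecidableEq α] (k : ℕ) (A : α → α → Prop),
    20 ≤ Fintype.card α → 5 * k ≤ Fintype.card α → (∀ x, mis (A x) ≤ k) →
    (∀ y, mis (fun x => A x y) ≤ k) → ∃ p, DSq A (4 / Fintype.card α) p

/-- [Q4] the family for a doubly stochastic matrix.
PROOF. Birkhoff (`exists_eq_sum_perm_of_mem_doublyStochastic`): `p = ∑_σ w σ * permMatrix σ`, `w ≥ 0`, `∑ w = 1`. (In Mathlib `σ.permMatrix x y = 1` iff `y = σ x`, or use `σ⁻¹`.)
For `w σ > 0` all `x`: `p x (σ x) ≥ w σ > 0`, so `A x (σ x)`. Take `μ σ` from [Q2] (for `w σ = 0` anything in a family, or sum only over the `σ` with `w σ ≠ 0`) and `μ = ∑ w σ * μ σ`: again a family.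
If `p x y = 0` then `σ x ≠ y` for all `σ` with `w σ > 0`, so the load is `≤ ∑ w σ = 1`. In general, since `∑_{σ x = y} w σ = p x y`:
load `≥ ∑_{σ x = y} w σ (N - 2k)/2 = p x y (N - 2k)/2`, which for `p x y = 4/N` is `≥ (4/N) (3N/5)/2 = 6/5 ≥ 1`. And `μ v x y ≤ p x y + 1/(2k) ≤ 4/N + 5/N` since `10 k ≥ N`. -/
def S_Q4 : Prop := S_Q1 → S_Q2 → ∀ (α β : Type) [Fintype α] [DecidableEq α] [Fintype β]
    [DecidableEq β] (k : ℕ) (A : α → α → Prop) (B C : β → α → Prop) (p : α → α → ℝ), 1 ≤ k →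
    5 * k ≤ Fintype.card α → Fintype.card α ≤ 10 * k → Hyp3 k A B C →
    DSq A (4 / Fintype.card α) p →
    ∃ μ, IsFam A B C μ ∧ (∀ v x y, μ v x y ≤ 20 / Fintype.card α) ∧
      (∀ x y, p x y = 0 → ∑ v, μ v x y ≤ 1) ∧
      (∀ x y, p x y = 4 / Fintype.card α → 1 ≤ ∑ v, μ v x y)

/-- [Q5] the variational argument.
PROOF. Let `K` be the set of all `μ : β → α → α → ℝ` with `IsFam A B C μ` and `μ ≤ D`; it is convex and compact (closed subset of a box). `Λ μ x y = ∑ v, μ v x y`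
is linear and continuous, so `Λ '' K` is convex and compact, hence closed. `J x y = 1` if `A x y`, else `0`. If `J ∉ Λ '' K` there are a continuous linear functional `f` and `u` with
`f J < u < f b` for all `b ∈ Λ '' K` (`geometric_hahn_banach_point_closed`). The set of all `p` with `DSq A E p` is compact and not empty, let `p` minimise `f` on it.
Take `μ` from the hypothesis. For small `ε > 0` the matrix `p' = p + ε (J - Λ μ)` is in `DSq A E`: rows: `∑_y (J - Λ μ) x y = (card α - mis (A x)) - (card β - mis (fun v => B v x)) = 0`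
(`∑_y μ v x y = 1` if `B v x`, and all `μ v x y = 0` if `¬ B v x`); columns in the same way with `C`; support: `μ v x y ≠ 0` implies `A x y`; `p' x y ≥ 0`: clear for small `ε` if `p x y > 0`; if `p x y = 0` then
`J x y - Λ μ x y ≥ 0` (if `¬ A x y` it is `0`); `p' x y ≤ E`: clear for small `ε` if `p x y < E`; if `p x y = E` (then `A x y` as `E > 0`) use `Λ μ x y ≥ 1`. Finitely many entries: `Filter.eventually_all`.
So `f p ≤ f p' = f p + ε (f J - f (Λ μ))`, i.e. `f (Λ μ) ≤ f J`, a contradiction. Hence `J = Λ μ` for some `μ ∈ K`. -/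
def S_Q5 : Prop := ∀ (α β : Type) [Fintype α] [DecidableEq α] [Fintype β] [DecidableEq β]
    (k : ℕ) (A : α → α → Prop) (B C : β → α → Prop) (D E : ℝ), 0 < E → Hyp3 k A B C →
    (∃ p, DSq A E p) →
    (∀ p, DSq A E p → ∃ μ, IsFam A B C μ ∧ (∀ v x y, μ v x y ≤ D) ∧
      (∀ x y, p x y = 0 → ∑ v, μ v x y ≤ 1) ∧ (∀ x y, p x y = E → 1 ≤ ∑ v, μ v x y)) →
    ∃ μ, IsFam A B C μ ∧ (∀ v x y, μ v x y ≤ D) ∧ ∀ x y, A x y → ∑ v, μ v x y = 1

/-- abstract fractional theorem: large parts, missing degrees at most `c N`, weights at most `C0 / N` -/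
def FracA (c C0 : ℝ) : Prop :=
  ∃ N0 : ℕ, ∀ (α β : Type) [Fintype α] [DecidableEq α] [Fintype β] [DecidableEq β] (k : ℕ)
    (A : α → α → Prop) (B C : β → α → Prop), N0 ≤ Fintype.card α → (k : ℝ) ≤ c * Fintype.card α →
    Hyp3 k A B C →
    ∃ μ, IsFam A B C μ ∧ (∀ v x y, μ v x y ≤ C0 / Fintype.card α) ∧
      ∀ x y, A x y → ∑ v, μ v x y = 1

/-- [Q6] assembly. PROOF. `N = card α ≥ 20`; `Hyp3 k A B C` implies `Hyp3 (N/5) A B C` as `k ≤ N/5` (natural number division); `1 ≤ N/5`, `5 (N/5) ≤ N ≤ 10 (N/5)`.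
Use [Q3] and [Q4] in [Q5] with `E = 4/N`, `D = 20/N`. -/
def S_Q6 : Prop := S_Q1 → S_Q2 → S_Q3 → S_Q4 → S_Q5 → FracA (1 / 5) 20

/-- [Q7] from the abstract to the concrete form.
PROOF. `N0` the same (and at least 1). Let `e0, e1, e2 : Fin N ≃ {v // π v = i}` for `i = 0, 1, 2` (`Eq3`), `A i j = G.Adj (e0 i) (e1 j)`,
`B v i = G.Adj (e2 v) (e0 i)`, `C v j = G.Adj (e2 v) (e1 j)`, `α = β = Fin N`. `mis (A i) = N - dg G (e0 i) (pt π univ 1)` etc.; the degree condition gives `mis ≤ c N`, so `≤ k := ⌊c N⌋₊`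
(if `c < 0` and `N ≥ 1` then the degree would be more than `N`, impossible), and `Bal` (`imb = 0` for each vertex: next part and previous part) gives the three equalities of `Hyp3`. Put
`W t = ∑ v i j, if t = {e0 i, e1 j, e2 v} then μ v i j else 0`. Since the three vertices are in different parts, at most one term is not `0`
(`{e0 i, e1 j, e2 v} = {e0 i', e1 j', e2 v'}` implies `i = i'`, `j = j'`, `v = v'`), so `0 ≤ W t ≤ C0/N` (`0 ≤ C0/N` follows if some `μ` is positive; if all terms vanish `W t = 0`; treat `C0` negative: then all `μ = 0`, impossible if there is an edge, and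
without edges `W = 0`... simply assume `0 < C0`). For an edge `x y` with `x = e0 i`, `y = e1 j`: the common neighbours are the
`e2 v` with `B v i`, `C v j`, and `∑ = ∑_v μ v i j = 1` (`μ v i j = 0` for the other `v`). For `x = e2 v`, `y = e0 i`: the common neighbours are the `e1 j` with `A i j`, `C v j`: `∑ = ∑_j μ v i j = 1`. In the same
way for the third type, and the sum is symmetric in `x`, `y` (`cn G x y = cn G y x`, `{x, y, z} = {y, x, z}`). -/
def S_Q7 : Prop := ∀ c C0 : ℝ, 0 < C0 → FracA c C0 → FracB c C0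

end DH
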